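import Pool.Agent.P8H39.TI.Stm3
import Pool.Agent.P8H78.TI.Ltwo
import Pool.Agent.P8H78.TI.Rone
import Pool.Agent.P8H59.TI.Finl
import Pool.Agent.P8H59.TI.Lvl
import Pool.Agent.P8H59.TI.Th
import Pool.Agent.P8H59.TI.B1
import Pool.Agent.P8H75.TI.Ps
import Pool.Agent.P8H75.TI.Num2
import Pool.Agent.P8H76.TI.Hb
import Pool.Agent.P8H76.TI.Num
import Pool.Agent.P8H54.TI.Pol
import Pool.Agent.P8H54.TI.Wb
import Pool.Agent.P8H4.TI.Cvx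
import Pool.Agent.P8H4.TI.Ha
import Pool.Agent.P8H23.TiWA
import Pool.Agent.P8H20.TI.Bpos
import Pool.Agent.P8H55.TI.Hb2
import Pool.Agent.P8H46.TI.Star
import Pool.Agent.P8H44.TI.Chu
import Pool.Agent.P8H7.TI.Pw
import Pool.Agent.P8H7.TI.Kone
import Pool.Agent.P8H57.TI.Sym
import Pool.Agent.P8H45.TI.Nt
import Pool.Agent.P8H45.TI.Sum
import Pool.Agent.P8H90.TI.Big

/-!
# Project TI: the packages put together
-/

set_option autoImplicit false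

namespace Pool.Agent.P8H39.TI

theorem aHB : S_HB := Pool.Agent.P8H76.TI.t_HB Pool.Agent.P8H4.TI.t_HA

theorem aPOL : S_POL := Pool.Agent.P8H54.TI.t_POL

theorem aWIL : S_WIL :=
  Pool.Agent.P8H54.TI.t_WIL Pool.Agent.P8H23.TiWA.t_WA Pool.Agent.P8H54.TI.t_WB

theorem aPS : S_PS := Pool.Agent.P8H75.TI.t_PS aHB aPOL (Pool.Agent.P8H76.TI.t_NUM aWIL)

theorem aLTWO : S_LTWO := Pool.Agent.P8H78.TI.t_LTWO aPS

theorem aFINL : S_FINL :=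
  Pool.Agent.P8H59.TI.t_FINL aLTWO
    (Pool.Agent.P8H78.TI.t_RONE aPS (Pool.Agent.P8H78.TI.t_ONE Pool.Agent.P8H4.TI.t_CVX)) aPS

theorem aNUM2 : S_NUM2 :=
  Pool.Agent.P8H75.TI.t_NUM2 Pool.Agent.P8H23.TiWA.t_WA Pool.Agent.P8H54.TI.t_WB
    (Pool.Agent.P8H46.TI.t_STAR Pool.Agent.P8H44.TI.t_CHU) aHB aPOL

theorem aLVL : S_LVL :=
  Pool.Agent.P8H59.TI.t_LVL (Pool.Agent.P8H55.TI.t_HB2 Pool.Agent.P8H4.TI.t_HA) aPOL aNUM2 aPS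

theorem aTH : S_TH :=
  Pool.Agent.P8H59.TI.t_TH aLVL (Pool.Agent.P8H20.TI.t_BPOS Pool.Agent.P8H59.TI.t_B1)

theorem aFIN2 : S_FIN2 :=
  Pool.Agent.P8H20.TI.t_FIN2 aFINL aTH Pool.Agent.P8H7.TI.t_PW
    (Pool.Agent.P8H7.TI.t_KONE aLTWO aPS)

theorem aBIG : S_BIG :=
  Pool.Agent.P8H90.TI.t_BIG Pool.Agent.P8H57.TI.t_SYM
    (Pool.Agent.P8H45.TI.t_NT Pool.Agent.P8H57.TI.t_CNT aPS) Pool.Agent.P8H45.TI.t_SUM aLTWO

theorem aFIN3 : S_FIN3 := Pool.Agent.P8H90.TI.t_FIN3 aFIN2 aBIG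

end Pool.Agent.P8H39.TI
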