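import Pool.Agent.P8H39.TI.Stm3

/-!
# Project TI, fourth part: all real `p ≥ 2` at the levels `r > t` for `n ≥ t + 8 r (k-t)`

Notation in the comments: `ν = n-t`, `κ = k-t`, `r = t+a`, `s_l = C(ν-l, ν-κ)` (`= C(ν-l, κ-l)`,
`0` for `l > κ`), `D = s_0`.  For `r > t` only thresholds `c ≤ s_{a+1}` matter (all degrees are at
most `s_a`, and the star has no degree strictly between `s_{a+1}` and `s_a`), and then the squares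
of the eigenvalues of degree `j > t` are small compared with `V/D`.

Packages (each: one file with a theorem `t_NAME : S_NAME`, possibly with earlier `S_...` as
hypotheses): STAR3, NUM3, LVL3, XL, ETA, XB, LAM, TH3, FIN4.
-/

set_option autoImplicit false

namespace Pool.Agent.P8H39.TI

open Finset

noncomputable section

/-- STAR3 (100 lines).  Proof.  `N ≥ 7(t+1)κ - t ≥ 6(t+1)κ`.  `C(t+m-1,m) ≤ t^m`, `(κ)_m/(N)_m ≤ (κ/N)^m`,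
`tκ/N ≤ 1/6`, `(N+t)_(t+m) = (N+t) (N+t-1)_(t-1) (N)_m`,
`(N+κ+t-m)_(t-1)/(N+t-1)_(t-1) ≤ (1+κ/N)^(t-1) ≤ 1/(1-(t-1)κ/N) ≤ 6/5`, `(N+κ+t+1)/(N+t) ≤ 8/7`: the
quotient is at most `(1/6)(6/5)(8/7) < 1/4`.  Second part:
`C(m+a-1,a) C(t+m-1,m+a) = C(t+m-1,m) C(t-1,a) m/(m+a)` and `(κ)_(m+a)/(N+a)_(m+a) ≤ (κ/N)^(m+a)`,
so `TT ≤ (tκ/N)^m (1+κ/N)^(t-1) ≤ (1/36)(6/5)`. -/
def S_STAR3 : Prop :=
  ∀ (t m κ N : ℕ), 1 ≤ t → 1 ≤ m → m ≤ κ → 2 ≤ κ → 7 * (t + 1) * κ ≤ N + t →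
    (κ.descFactorial m : ℝ) * ((t + m - 1).choose m : ℝ) * ((N : ℝ) + κ + t + 1) *
        ((N + κ + t - m).descFactorial (t - 1) : ℝ) ≤
      1 / 4 * ((N + t).descFactorial (t + m) : ℝ) ∧
    (2 ≤ m → TT t m κ N ≤ 1 / 8)

/-- NUM3 (may assume `S_STAR3` and everything landed; copy of the proof of `S_NUM2` by helper75 with
`S_STAR3` in place of `S_STAR`).  `j - t = m` even: `ev P j ≤ 0` and `2(1 + ev Q j) - 7/4 =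
1/4 - 2 TT ≥ 0`.  `m` odd: `ev P j (1 + ev Q 0) ≤ (1/4) ev P 0`, `ev Q j = TT ≥ 0`. -/
def S_NUM3 : Prop :=
  ∀ (n k t i : ℕ), 1 ≤ t → t + 2 ≤ k → t + 8 * (t + 1) * (k - t) ≤ n → 1 ≤ i → i ≤ t →
    ∃ P Q : Polynomial ℝ, P.degree < (t : WithBot ℕ) ∧ Q.degree < (t : WithBot ℕ) ∧
      (∀ j, 1 ≤ j → j ≤ t → ev n k Q j = -1) ∧
      (∀ j, 1 ≤ j → j ≤ t → ev n k P j = if j = i then -1 else 0) ∧
      0 ≤ ev n k P 0 ∧ 0 ≤ ev n k Q 0 ∧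
      (∀ j, t < j → j ≤ k → -(1 / 8) ≤ ev n k Q j ∧
        ev n k P j * (1 + ev n k Q 0) ≤ ev n k P 0 * (2 * (1 + ev n k Q j) - 7 / 4))

/-- LVL3 (may assume `S_HB2`, `S_POL`, `S_NUM3`, `S_PS`; copy of the proof of `S_LVL` by helper59).
`X = Σ_{j>t} x_j`.  For `1 ≤ i ≤ t`: `x_i ≤ φ² z_i + Σ_{j>t} ev P j x_j`
`≤ φ² z_i + (z_i/D) Σ_{j>t} (2(1 + ev Q j) - 7/4) x_j = φ² z_i + 2φ(1-φ) z_i - (7/4)(z_i/D) X`.
For `i = 0`: `(7/8) X ≤ Σ_{j>t} (1 + ev Q j) x_j = φ(1-φ) D`, so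
`x_0 + (7/4)(z_0/D) X ≤ φ² z_0 + 2φ(1-φ) z_0 ≤ z_0`.  `z_j = 0` for `j > t`: last item of `S_HB2`. -/
def S_LVL3 : Prop :=
  ∀ (n k t : ℕ) (F : Finset (Finset (Fin n))) (T : Finset (Fin n)),
    1 ≤ t → t + 2 ≤ k → t + 8 * (t + 1) * (k - t) ≤ n → TInt k t F → T.card = t →
    F.card ≤ (star k T).card ∧
    ∃ x z : ℕ → ℝ, (∀ j, 0 ≤ x j) ∧
      (∀ i, i ≤ t → x i * ((star k T).card : ℝ) + 7 / 4 * z i * ∑ j ∈ Ioc t k, x j ≤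
        z i * ((star k T).card : ℝ)) ∧
      (∀ r, r ≤ k → ∀ b : ℕ → ℝ,
        ∑ R ∈ slice n r, (∑ A ∈ F, b (R \ A).card) ^ 2 = ∑ j ∈ range (r + 1), lamb n k r b j * x j) ∧
      (∀ r, r ≤ k → ∀ b : ℕ → ℝ,
        ∑ R ∈ slice n r, (∑ A ∈ star k T, b (R \ A).card) ^ 2 =
          ∑ j ∈ range (r + 1), lamb n k r b j * z j) ∧
      (∀ j, t < j → j ≤ k → z j = 0)

/-- XL (100 lines): Leibniz rule for `M`-th differences of `C(j-1+u, q) * 1/(x-u)_m` at `u = 0`.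
Proof.  Induction on `M` (all `q, j, m, x`; also for `q` one uses `Δ C(j-1+u,0) = 0`):
`Δ(φψ)(u) = φ(u+1) Δψ(u) + Δφ(u) ψ(u)`, with `φ(u+1) = C(j+u, q)`,
`Δψ(u) = m/(x-u)_(m+1)`, `Δφ(u) = C(j-1+u, q-1)` (`0` for `q = 0`); the right side satisfies the same
recursion by Pascal's rule.  Both sides are `0`-difference identities checked numerically. -/
def S_XL : Prop :=
  ∀ (M q j m x : ℕ), 1 ≤ j → 1 ≤ m → M + m ≤ x →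
    ∑ u ∈ range (M + 1), (-1 : ℝ) ^ (M - u) * (M.choose u : ℝ) * ((j - 1 + u).choose q : ℝ) /
        ((x - u).descFactorial m : ℝ) =
      ∑ v ∈ range (M + 1), (M.choose v : ℝ) * (m.ascFactorial v : ℝ) /
        (x.descFactorial (m + v) : ℝ) *
          (if M - v ≤ q then ((j - 1 + v).choose (q - (M - v)) : ℝ) else 0)

/-- the eigenvalue (up to sign), `lamb = eta² C(k-j,r-j)/C(n-r-j,k-r)` -/
def eta (n k r : ℕ) (b : ℕ → ℝ) (j : ℕ) : ℝ :=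
  ∑ i ∈ range (r + 1), (∑ e ∈ range (i + 1), (-1 : ℝ) ^ (i - e) * (i.choose e : ℝ) * b e) *
    ((n - i - j).choose (k - j) : ℝ) * ((r - j).choose (r - i) : ℝ)

/-- bound for the correction of the eigenvalue of degree `t+m` -/
def corr (ν κ t a m : ℕ) : ℝ :=
  ∑ q ∈ Ico (a + 1) (t + a), ((ν - q).choose (ν - κ) : ℝ) * (κ.descFactorial m : ℝ) *
    ∑ v ∈ range (a - m + 1), ((a - m).choose v : ℝ) * (m.ascFactorial v : ℝ) /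
      ((ν - t - m).descFactorial (m + v) : ℝ) * ((t + m - 1 + v).choose (q - (a - m) + v) : ℝ)

/-- the defining equations of the coefficients `b` -/
def Tight (ν κ r : ℕ) (c : ℝ) (b : ℕ → ℝ) : Prop :=
  ∀ l, l ≤ r → ∑ e ∈ range (l + 1), b e * (l.choose e : ℝ) * ((ν - l).choose (ν - κ - e) : ℝ) =
    max (((ν - l).choose (ν - κ) : ℕ) : ℝ) c

/-- ETA (180 lines, may assume `S_XL`).  `r = t+a`, `j = t+m`.  Proof.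
`β_i = Σ_e (-1)^(i-e) C(i,e) b_e`, so `b_e = Σ_i C(e,i) β_i` for `e ≤ r`, and (Vandermonde, as in
B1) `Σ_e b_e C(l,e) C(ν-l,ν-κ-e) = Σ_i C(l,i) C(ν-i,κ) β_i`; hence with `h(l) = max s_l c`:
`C(ν-i,κ) β_i = Σ_l (-1)^(i-l) C(i,l) h(l)`.  Write `h(l) = s_l + Σ_{q<l} δ_q`,
`δ_q = max(c-s_{q+1}) 0 - max(c-s_q) 0`, `0 ≤ δ_q ≤ s_q`, `δ_q = 0` for `q ≤ a` (`c ≤ s_{a+1}`).
`Σ_l (-1)^(i-l) C(i,l) s_l = (-1)^i C(ν-i,κ)` (that is `b = [e=0]`) and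
`Σ_l (-1)^(i-l) C(i,l) [l > q] = (-1)^(i-q-1) C(i-1,q)` for `i ≥ 1`.  So
`β_i = (-1)^i + Σ_q δ_q (-1)^(i-q-1) C(i-1,q)/C(ν-i,κ)`.  First part:
`Σ_i (-1)^i C(n-i-j,k-j) C(r-j,r-i) = (-1)^j C(n-r-j,k-r)`.  Second part:
`C(n-i-j,k-j)/C(ν-i,κ) = (κ)_m/(ν-i)_m` (`n-i-j = ν-i-m`, `k-j = κ-m`), and with `i = j+u`,
`M = r-j = a-m`, the sum over `i` is, up to sign, `(κ)_m` times the left side of `S_XL` with
`x = ν-j`; the right side is the inner sum of `corr`. -/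
def S_ETA : Prop :=
  ∀ (n k t a m : ℕ) (c : ℝ) (b : ℕ → ℝ), 1 ≤ t → 1 ≤ m → m ≤ a → t + a < k →
    t + 8 * (t + a) * (k - t) ≤ n → 0 ≤ c → c ≤ ((n - t - (a + 1)).choose (n - k) : ℝ) →
    Tight (n - t) (k - t) (t + a) c b →
    |eta n k (t + a) b (t + m)| ≤
      ((n - (t + a) - (t + m)).choose (k - (t + a)) : ℝ) + corr (n - t) (k - t) t a m

/-- XB (120 lines).  `E = C(ν-a-t-m, κ-a)`, `s_a = C(ν-a, κ-a)`.  Proof.  `κ ≥ 2`, `r = t+a`.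
`E ≤ s_a` and `E/s_a = Π_{i<κ-a} (ν-a-t-m-i)/(ν-a-i) ≥ 1 - (t+m)κ/(ν-κ) ≥ 6/7`.
`s_{a+Q} ≤ s_a (κ/ν)^Q`, `(κ)_m ≤ κ^m`, `m.asc v ≤ (a)^v ...`; precisely `m.asc v/(Q+m+v)! ≤ 1`,
`C(a-m,v) ≤ a^v`, `C(t+m-1+v, Q+m+v) ≤ r^(Q+m+v)/(Q+m+v)!`, `(ν-t-m)_(m+v) ≥ (ν-2r)^(m+v)`, and
`q = a+Q`, `q-(a-m)+v = Q+m+v`.  So the term with `(Q,v)` is at most
`s_a (rκ/ν)^Q (rκ/(ν-2r))^m (ar/(ν-2r))^v ≤ s_a (1/8)^Q (1/7) (1/7)^v` (`a ≤ κ`, `ν-2r ≥ 7rκ`), and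
`corr ≤ s_a (1/7)(1/7)(7/6) = s_a/42 ≤ E/5`. -/
def S_XB : Prop :=
  ∀ (ν κ t a m : ℕ), 1 ≤ t → 1 ≤ m → m ≤ a → a < κ → 8 * (t + a) * κ ≤ ν →
    corr ν κ t a m ≤ 1 / 5 * ((ν - a - t - m).choose (κ - a) : ℝ) ∧
    ((ν - a - t - m).choose (κ - a) : ℝ) ≤ ((ν - a).choose (κ - a) : ℝ)

/-- LAM (100 lines, may assume `S_ETA`, `S_XB`).  Proof.  `lamb = eta² C(κ-m,a-m)/E`
`≤ (36/25) E C(κ-m,a-m) ≤ (36/25) s_a C(κ,a)`; `C(ν,a) s_a = C(κ,a) C(ν,κ)`;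
`s_a - s_{a+1} = s_a (1 - (κ-a)/(ν-a)) ≥ (15/16) s_a`; `36/25 ≤ (7/4)(15/16)²`. -/
def S_LAM : Prop :=
  ∀ (n k t a m : ℕ) (c : ℝ) (b : ℕ → ℝ), 1 ≤ t → 1 ≤ m → m ≤ a → t + a < k →
    t + 8 * (t + a) * (k - t) ≤ n → 0 ≤ c → c ≤ ((n - t - (a + 1)).choose (n - k) : ℝ) →
    Tight (n - t) (k - t) (t + a) c b →
    lamb n k (t + a) b (t + m) * ((n - t).choose (k - t) : ℝ) ≤
      7 / 4 * (((n - t).choose a : ℝ) *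
        (((n - t - a).choose (n - k) : ℝ) - ((n - t - (a + 1)).choose (n - k) : ℝ)) ^ 2)

/-- TH3 (200 lines, may assume `S_LVL3`, `S_BPOS`, `S_LAM`; see the proof of `S_TH` by helper59).
Proof.  `a = r-t`.  `d_F(R) ≤ C(n-r,k-r) = s_a`; the degrees of the star are `s_l`, `l = |R \ T| ≥ a`.
`c ≥ s_a`: the left side is `0`.  `s_{a+1} ≤ c < s_a`: `(d-c)_+ ≤ ρ (d - s_{a+1})_+` for `d ≤ s_a` with
`ρ = (s_a-c)/(s_a-s_{a+1})`, with equality (both sides `0`) for `d = s_l`, `l > a`, and equality for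
`d = s_a`; so the claim follows from the case `c = s_{a+1}`.  `c ≤ s_{a+1}`: `b` from `S_BPOS` for `r`
(`(r+1)κ+1 ≤ 8rκ ≤ ν`), `b'(e) = b(e) - c/D`; `lamb(b') j = lamb(b) j` for `j ≥ 1`.  As in TH the left
side is at most `Σ_R (Σ_{A∈F} b')² = Σ_{j≤r} lamb(b') j x_j`, and
`V := Σ_R (d_S - c)_+² = Σ_R (Σ_{A∈S} b')² = Σ_{j≤t} lamb(b') j z_j`.  By `S_LVL3` (multiplied by
`lamb(b') i` and summed over `i ≤ t`) `D Σ_{i≤t} lamb x_i + (7/4) V Σ_{j>t} x_j ≤ V D`; by `S_LAM`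
`D lamb(b') j ≤ (7/4) C(ν,a) (s_a - s_{a+1})² ≤ (7/4) V` for `t < j ≤ r` (the `C(ν,a)` sets `R ⊇ T`
have degree `s_a` and `c ≤ s_{a+1}`).  Together `D Σ_{j≤r} lamb x_j ≤ V D`. -/
def S_TH3 : Prop :=
  ∀ (n k t r : ℕ) (c : ℝ) (F : Finset (Finset (Fin n))) (T : Finset (Fin n)),
    1 ≤ t → t < r → r < k → t + 8 * r * (k - t) ≤ n → TInt k t F → T.card = t → 0 ≤ c →
    ∑ R ∈ slice n r, (max ((deg F R : ℝ) - c) 0) ^ 2 ≤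
      ∑ R ∈ slice n r, (max ((deg (star k T) R : ℝ) - c) 0) ^ 2

/-- FIN4 (60 lines, may assume `S_FIN2`, `S_TH3`, `S_PW`). -/
def S_FIN4 : Prop :=
  (∀ (n k t r : ℕ) (p : ℝ) (F : Finset (Finset (Fin n))) (T : Finset (Fin n)),
    1 ≤ t → t ≤ k → 1 ≤ r → r ≤ k - 1 → (t + 1) * (k - t + 1) ≤ n →
    TInt k t F → T.card = t → 2 ≤ p → (p = 2 ∨ r ≤ t ∨ t + 8 * r * (k - t) ≤ n) →
      ell r p F ≤ ell r p (star k T)) ∧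
  (∀ (n k t r : ℕ) (F : Finset (Finset (Fin n))) (T : Finset (Fin n)),
    1 ≤ t → t ≤ k → r ≤ k → (t + 1) * (k - t + 1) ≤ n → TInt k t F → T.card = t →
    ell r 2 F * ((star k T).card : ℝ) ≤ (F.card : ℝ) * ell r 2 (star k T))

end

end Pool.Agent.P8H39.TI
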