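import Pool.Agent.P8H39.TI.Stm4
import Pool.Agent.P8H39.TI.All
import Pool.Agent.P8H73.TI.Eta
import Pool.Agent.P8H73.TI.Lam
import Pool.Agent.P8H53.TI.Fin4
import Pool.Agent.P8H86.TI.Lvl3
import Pool.Agent.P8H93.TI.Num3
import Pool.Agent.P8H71.TI.Star3
import Pool.Agent.P8H94.TI.Th3
import Pool.Agent.P8H4.TI.Xb
import Pool.Agent.P8H66.TI.Xl4

/-!
# Project TI: the packages of part four put together
-/

set_option autoImplicit false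

namespace Pool.Agent.P8H39.TI

theorem aNUM3 : S_NUM3 :=
  Pool.Agent.P8H93.TI.t_NUM3 Pool.Agent.P8H23.TiWA.t_WA Pool.Agent.P8H71.TI.t_STAR3 aHB aPOL

theorem aLVL3 : S_LVL3 :=
  Pool.Agent.P8H86.TI.t_LVL3 (Pool.Agent.P8H55.TI.t_HB2 Pool.Agent.P8H4.TI.t_HA) aPOL aNUM3 aPS

theorem aETA : S_ETA := Pool.Agent.P8H73.TI.t_ETA Pool.Agent.P8H66.TI.t_XL

theorem aLAM : S_LAM := Pool.Agent.P8H73.TI.t_LAM aETA Pool.Agent.P8H4.TI.t_XB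

theorem aTH3 : S_TH3 :=
  Pool.Agent.P8H94.TI.t_TH3 aLVL3 (Pool.Agent.P8H20.TI.t_BPOS Pool.Agent.P8H59.TI.t_B1) aLAM

theorem aFIN4 : S_FIN4 := Pool.Agent.P8H53.TI.t_FIN4 aFIN2 aTH3 Pool.Agent.P8H7.TI.t_PW

end Pool.Agent.P8H39.TI
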