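import Pool.Agent.P8H39.TI.Stm5
import Pool.Agent.P8H39.TI.All4
import Pool.Agent.P8H26.TI.Star5
import Pool.Agent.P8H80.TI.Num5
import Pool.Agent.P8H93.TI.Lvl5
import Pool.Agent.P8H84.TI.B5
import Pool.Agent.P8H21.TI.Lam5
import Pool.Agent.P8H75.TI.Th5
import Pool.Agent.P8H45.TI.Fin5

/-!
# Project TI: the packages of part five put together
-/

set_option autoImplicit false

namespace Pool.Agent.P8H39.TI

theorem aSTAR5 : S_STAR5 := Pool.Agent.P8H26.TI.t_STAR5 Pool.Agent.P8H44.TI.t_CHU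

theorem aNUM5 : S_NUM5 :=
  Pool.Agent.P8H80.TI.t_NUM5 Pool.Agent.P8H23.TiWA.t_WA Pool.Agent.P8H54.TI.t_WB
    (Pool.Agent.P8H46.TI.t_STAR Pool.Agent.P8H44.TI.t_CHU) aSTAR5 aHB aPOL

theorem aLVL5 : S_LVL5 :=
  Pool.Agent.P8H93.TI.t_LVL5 (Pool.Agent.P8H55.TI.t_HB2 Pool.Agent.P8H4.TI.t_HA) aPOL aNUM5 aPS

theorem aTH5 : S_TH5 :=
  Pool.Agent.P8H75.TI.t_TH5 aLVL5 Pool.Agent.P8H84.TI.b5 Pool.Agent.P8H21.TI.t_LAM5

theorem aFIN5 : S_FIN5 := Pool.Agent.P8H45.TI.t_FIN5 aFIN4 aTH5 Pool.Agent.P8H7.TI.t_PW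

end Pool.Agent.P8H39.TI
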