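import Pool.Agent.P8H39.TI.Stm7
import Pool.Agent.P8H39.TI.All5
import Pool.Agent.P8H38.TI.Str
import Pool.Agent.P8H96.TI.Prj
import Pool.Agent.P8H57.TI.Got
import Pool.Agent.P8H46.TI.Sup
import Pool.Agent.P8H47.TI.Uni
import Pool.Agent.P8H47.TI.Hfb
import Pool.Agent.P8H68.TI.NulP
import Pool.Agent.P8H86.TI.Nlb
import Pool.Agent.P8H52.TI6.Bgb
import Pool.Agent.P8H61.TI.Fin7

/-!
# Project TI: the packages of part six put together
-/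

set_option autoImplicit false

namespace Pool.Agent.P8H39.TI

theorem aNUL : S_NUL :=
  Pool.Agent.P8H68.TI.t_NUL Pool.Agent.P8H23.TiWA.t_WA Pool.Agent.P8H38.TI.t_STR aHB aPOL

theorem aUNI : S_UNI :=
  Pool.Agent.P8H47.TI.t_UNI aNUL (Pool.Agent.P8H96.TI.t_PRJ aHB)
    (Pool.Agent.P8H46.TI.t_SUP Pool.Agent.P8H57.TI.t_GOT) aHB

theorem aBGB : S_BGB :=
  Pool.Agent.P8H52.TI6.t_BGB aUNI Pool.Agent.P8H47.TI.t_HFB Pool.Agent.P8H86.TI.t_NLB aPS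

theorem aFIN7 : S_FIN7 := Pool.Agent.P8H61.TI.t_FIN7 aFIN5 aBGB

end Pool.Agent.P8H39.TI
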