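import Pool.Agent.P8H39.TI.All7
import Pool.Agent.P8H39.TI.Th8

/-!
# Project TI: the case `r = t+1`, `k ≤ 2t` added
-/

set_option autoImplicit false

namespace Pool.Agent.P8H39.TI

theorem aTH8 : S_TH8 :=
  T8.t_TH8 aLVL5 (T8.t_B8 (Pool.Agent.P8H20.TI.t_BPOS Pool.Agent.P8H59.TI.t_B1))
    Pool.Agent.P8H21.TI.t_LAM5

theorem aFIN8 : S_FIN8 := by
  refine ⟨?_, aFIN7.2⟩
  intro n k t r p F T ht hk hr hrk hn hF hT hp hc
  rcases hc with h | h | h | h | ⟨hr1, ht2, hk3, h | h⟩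
  · exact aFIN7.1 n k t r p F T ht hk hr hrk hn hF hT hp (Or.inl h)
  · exact aFIN7.1 n k t r p F T ht hk hr hrk hn hF hT hp (Or.inr (Or.inl h))
  · exact aFIN7.1 n k t r p F T ht hk hr hrk hn hF hT hp (Or.inr (Or.inr (Or.inl h)))
  · exact aFIN7.1 n k t r p F T ht hk hr hrk hn hF hT hp (Or.inr (Or.inr (Or.inr (Or.inl h))))
  · subst hr1
    unfold ell
    exact Pool.Agent.P8H7.TI.t_PW n (slice n (t + 1)) (fun R => (deg F R : ℝ))
      (fun R => (deg (star k T) R : ℝ)) p hp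
      (fun R _ => Nat.cast_nonneg _) (fun R _ => Nat.cast_nonneg _)
      (fun c hc => aTH8 n k t c F T ht2 hk3 hn h hF hT hc)
  · exact aFIN7.1 n k t r p F T ht hk hr hrk hn hF hT hp
      (Or.inr (Or.inr (Or.inr (Or.inr ⟨hr1, ht2, hk3, Or.inr h⟩))))

end Pool.Agent.P8H39.TI
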