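import Mathlib

/-!
# Project TI (MP_d97b4e_co): degree power sums of t-intersecting families

Q1 for `p = 2` and every level `r`, and for `r = 1` and every real `p ≥ 2`, in the full range
`n ≥ (t+1)(k-t+1)`.  Ground set `Fin n`, `slice n k` is the set of all `k`-sets.

Idea.  A function on the `k`-sets is a sum of orthogonal harmonic parts `v_0, ..., v_k`; put
`x_j = ‖v_j‖²`.  All sums `Σ_R d(R)²` are combinations `Σ λ_j x_j` with `λ_j` decreasing, and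
being t-intersecting gives `Σ_j (-1)^j w_j P(y_j) x_j = 0` for all polynomials `P` of degree `< t`.
With Wilson's inequality and Lagrange interpolation this gives, for all `s`,
`(x_0 + ... + x_s) |S| ≤ |F| (x_0^S + ... + x_s^S)`, where `S` is the full `t`-star.

Packages (each: one file with a theorem `t_NAME : S_NAME`, possibly with earlier `S_...` as
hypotheses): HA, HB, POL, WA, WB, WIL, NUM, PS, LTWO, CVX, ONE, RONE, FINL.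
-/

set_option autoImplicit false

namespace Pool.Agent.P8H39.TI

open Finset

noncomputable section

/-- all `k`-element subsets of `Fin n` -/
abbrev slice (n k : ℕ) : Finset (Finset (Fin n)) := powersetCard k univ

/-- `(W_R f) = Σ_{A ⊇ R, |A| = k} f(A)` -/
def up (n k : ℕ) (f : Finset (Fin n) → ℝ) (R : Finset (Fin n)) : ℝ :=
  ∑ A ∈ (slice n k).filter (fun A => R ⊆ A), f A

/-- `Σ_{A ∩ R = ∅, |A| = k} f(A)` -/
def av (n k : ℕ) (f : Finset (Fin n) → ℝ) (R : Finset (Fin n)) : ℝ :=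
  ∑ A ∈ (slice n k).filter (fun A => Disjoint A R), f A

/-- `Σ_{X ⊆ A, |X| = j} u(X)` -/
def dn {n : ℕ} (j : ℕ) (u : Finset (Fin n) → ℝ) (A : Finset (Fin n)) : ℝ :=
  ∑ X ∈ powersetCard j A, u X

/-- `u` is harmonic of degree `j` (only its values on `j`-sets matter): all sums over the `j`-sets
containing a given set with fewer than `j` elements vanish. -/
def Harm (n j : ℕ) (u : Finset (Fin n) → ℝ) : Prop :=
  ∀ Y : Finset (Fin n), Y.card < j → up n j u Y = 0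

/-- HA (150 lines).  Let `u` be harmonic of degree `j`, `v(A) = Σ_{X ⊆ A, |X| = j} u(X)`.
(1) `Σ_{A ⊇ R, |A| = k} v(A) = C(n-r-j, k-r) v_r(R)` for `|R| = r`, `r, j ≤ k`, `2k ≤ n`, where
`v_r(R) = Σ_{X ⊆ R, |X| = j} u(X)` (`= 0` if `r < j`).
(2) `Σ_{A ∩ I = ∅, |A| = k} v(A) = (-1)^j C(n-i-j, k-j) v_i(I)` for `|I| = i ≤ k`.
Proof.  Exchange sums.  For `X` with `|X| = j`, the number of `k`-sets containing `R ∪ X` is
`C(n-|R∪X|, k-|R∪X|) = C(n-r-j+|R∩X|, n-k)` and by Vandermonde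
`C(n-r-j+m, n-k) = Σ_l C(m,l) C(n-r-j, n-k-l)`, and `C(|R∩X|, l)` = number of `l`-subsets `Y` of
`R` with `Y ⊆ X`.  So the sum is `Σ_l C(n-r-j, n-k-l) Σ_{Y ⊆ R, |Y| = l} Σ_{X ⊇ Y} u(X)`, and by
harmonicity only `l = j` is left (for `l = j` the inner sum is `u(Y)`), with coefficient
`C(n-r-j, n-k-j) = C(n-r-j, k-r)`.
(2) the number of `k`-sets containing `X` and disjoint from `I` is `0` if `I ∩ X ≠ ∅` and else
`C(n-i-j, k-j)`; the indicator of `I ∩ X = ∅` is `Σ_l (-1)^l C(|I∩X|, l)`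
`= Σ_l (-1)^l #{Y ⊆ I : |Y| = l, Y ⊆ X}`; again only `l = j` is left. -/
def S_HA : Prop :=
  ∀ (n k j : ℕ) (u : Finset (Fin n) → ℝ), 2 * k ≤ n → j ≤ k → Harm n j u →
    (∀ R : Finset (Fin n), R.card ≤ k →
      up n k (dn j u) R = ((n - R.card - j).choose (k - R.card) : ℝ) * dn j u R) ∧
    (∀ I : Finset (Fin n), I.card ≤ k →
      av n k (dn j u) I = (-1 : ℝ) ^ j * ((n - I.card - j).choose (k - j) : ℝ) * dn j u I)

/-- HB (200 lines, may assume `S_HA`).  Harmonic decomposition.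
Proof.  (i) Every `f` on the `k`-sets is `Σ_{j ≤ k} dn j u_j` (on `k`-sets) with `u_j` harmonic of
degree `j`: induction on `k`; the orthogonal projection of `f` (in the Euclidean space of functions
on `slice n k`) on the space `{dn (k-1) g}` leaves a function `h` orthogonal to all `dn (k-1) g`,
i.e. `up n k h Y = 0` for `|Y| = k-1`, hence for all `|Y| < k` (sum over the `(k-1)`-sets
containing `Y`), so `h` is harmonic of degree `k` (`dn k h A = h A`); and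
`dn (k-1) (dn j u) A = (k-j) dn j u A` for `|A| = k`.
(ii) For harmonic `u, v` of different degrees `i < j ≤ k` the functions `dn i u`, `dn j v` on the
`k`-sets are orthogonal: `Σ_A dn i u A * dn j v A = Σ_{|X| = i} u X * up n k (dn j v) X = 0` by
`S_HA` (`dn j v X = 0` as `|X| < j`).
(iii) With `v_j = dn j u_j` on `slice n k` and `x_j = Σ_A (v_j A)²`:
`Σ_R (up f R)² = Σ_{j,l} Σ_A v_j A * (Σ_{R ⊆ A, |R| = r} up v_l R)` and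
`Σ_{R ⊆ A, |R| = r} dn l u_l R = C(k-l, r-l) dn l u_l A` for `l ≤ r` (and `0` for `l > r`), so
`Σ_R (up f R)² = Σ_{j ≤ r} C(k-j, r-j) C(n-r-j, k-r) x_j`.  In the same way
`Σ_{A,B} C(|A \ B|, i) f A f B = Σ_{|I| = i} up f I * av f I`, which gives the fifth item.
Third item: `v_0` is constant (`= Σ f / C(n,k)`); or take `r = 0` in the fourth item.
Last item: decompose `g` on the `t`-sets by (i): `f = Σ_{i ≤ t} C(k-i, t-i) dn i g_i`, and for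
`j > t`: `x_j = Σ_A v_j A * f A = 0` by (ii). -/
def S_HB : Prop :=
  ∀ (n k : ℕ), 2 * k ≤ n → ∀ f : Finset (Fin n) → ℝ, ∃ x : ℕ → ℝ,
    (∀ j, 0 ≤ x j) ∧
    (∑ j ∈ range (k + 1), x j = ∑ A ∈ slice n k, f A ^ 2) ∧
    (x 0 * (n.choose k : ℝ) = (∑ A ∈ slice n k, f A) ^ 2) ∧
    (∀ r, r ≤ k → ∑ R ∈ slice n r, up n k f R ^ 2 =
      ∑ j ∈ range (r + 1),
        ((k - j).choose (r - j) : ℝ) * ((n - r - j).choose (k - r) : ℝ) * x j) ∧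
    (∀ i, i ≤ k → ∑ A ∈ slice n k, ∑ B ∈ slice n k, ((A \ B).card.choose i : ℝ) * f A * f B =
      ∑ j ∈ range (i + 1),
        (-1 : ℝ) ^ j * ((k - j).choose (i - j) : ℝ) * ((n - i - j).choose (k - j) : ℝ) * x j) ∧
    (∀ t, t ≤ k → (∃ g : Finset (Fin n) → ℝ, ∀ A ∈ slice n k, f A = dn t g A) →
      ∀ j, t < j → j ≤ k → x j = 0)

/-- weights `w_j = (n-k-j)! / (k-j)!` -/
def w (n k j : ℕ) : ℝ := ((n - k - j).factorial : ℝ) / ((k - j).factorial : ℝ)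

/-- nodes `y_j = j (n+1-j)` -/
def y (n j : ℕ) : ℝ := (j : ℝ) * ((n : ℝ) + 1 - j)

/-- `(-1)^j w_j P(y_j)` -/
def ev (n k : ℕ) (P : Polynomial ℝ) (j : ℕ) : ℝ := (-1 : ℝ) ^ j * w n k j * P.eval (y n j)

/-- POL (120 lines).  Proof.  With `i = k - b`, `b < t`:
`C(k-j, k-b-j) C(n-k+b-j, k-j) = w_j Π_{u<b} ((n-k+1+u)(k-u) - y_j) / (b! (n-2k+b)!)` for
`j ≤ k - b` (because `(n-k+1+u-j)(k-u-j) = (n-k+1+u)(k-u) - y_j`), and for `k-b < j ≤ k` the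
product on the right vanishes (`u = k-j`).  So `Σ_{j ≤ k} ev (N_b) j x_j = 0` for the polynomials
`N_b = Π_{u<b} (C((n-k+1+u)(k-u)) - X)`, `b < t`, and these span the polynomials of degree `< t`
(`N_b` has degree `b` and leading coefficient `± 1`; induction). -/
def S_POL : Prop :=
  ∀ (n k t : ℕ), t ≤ k → 2 * k ≤ n → ∀ x : ℕ → ℝ,
    (∀ i, k < t + i → i ≤ k → ∑ j ∈ range (i + 1),
      (-1 : ℝ) ^ j * ((k - j).choose (i - j) : ℝ) * ((n - i - j).choose (k - j) : ℝ) * x j = 0) →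
    ∀ P : Polynomial ℝ, P.degree < (t : WithBot ℕ) → ∑ j ∈ range (k + 1), ev n k P j * x j = 0

/-- Wilson's sum `θ_j = Σ_{b<t} (-1)^(t-1-b) C(k-1-b, k-t)/C(n-k-t+b, k-t) (-1)^j C(k-j, b)
C(n-k+b-j, k-j)`. -/
def theta (n k t j : ℕ) : ℝ :=
  ∑ b ∈ range t, (-1 : ℝ) ^ (t - 1 - b) * ((k - 1 - b).choose (k - t) : ℝ) /
    ((n - k - t + b).choose (k - t) : ℝ) *
    ((-1 : ℝ) ^ j * ((k - j).choose b : ℝ) * ((n - k + b - j).choose (k - j) : ℝ))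

/-- `T_m = Σ_{a<t} C(m+a-1, a) C(t+m-1, m+a) (κ)_(m+a) / (N+a)_(m+a)` (falling factorials) -/
def TT (t m κ N : ℕ) : ℝ :=
  ∑ a ∈ range t, ((m + a - 1).choose a : ℝ) * ((t + m - 1).choose (m + a) : ℝ) *
    (κ.descFactorial (m + a) : ℝ) / ((N + a).descFactorial (m + a) : ℝ)

/-- WA (150 lines).  Evaluation of Wilson's sum; `κ = k-t`, `N = n-k-t`.
(1) `θ_j = -1` for `1 ≤ j ≤ t`; (2) `θ_{t+m} = (-1)^(m-1) T_m` for `1 ≤ m ≤ κ`.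
Proof of (2).  `q = κ-m`.  `C(N+b-m, κ-m)/C(N+b, κ) = (κ)_m/(N+b)_m =: (κ)_m h(b)`.  Vandermonde:
`C(q,b) C(q+m+t-1-b, t-1-b) = Σ_a C(q,a) C(a,b) C(t+m-1, t-1-a)`.  Finite differences:
`Σ_b (-1)^b C(a,b) h(b) = (m+a-1)! / ((m-1)! (N+a)_(m+a))` (induction on `a`, all `N ≥ m`:
`D_{a+1}(N) = D_a(N) - D_a(N+1)`).  Then use `(κ)_m (q)_a = (κ)_(m+a)` and
`(m+a-1)!/((m-1)! a!) = C(m+a-1, a)`, `C(t+m-1, t-1-a) = C(t+m-1, m+a)`; the sign is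
`(-1)^(t-1+t+m) = (-1)^(m-1)`.
Proof of (1).  `m' = t-j`, `Q = κ+m' = k-j`; `C(N+m'+b, κ+m')/C(N+b, κ) =`
`(N+b+1)(N+b+2)...(N+b+m') κ!/(κ+m')!`, and
`C(Q,b) C(κ+t-1-b, t-1-b) = Σ_a C(Q,a) C(a,b) C(t-1-m', t-1-a)`; `Σ_b (-1)^b C(a,b) h(b)` for the
monic polynomial `h(b) = (N+b+1)...(N+b+m')` of degree `m'` is `0` for `a > m'` and `(-1)^m' m'!`
for `a = m'`, while `C(t-1-m', t-1-a) = 0` for `a < m'`; only `a = m'` is left. -/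
def S_WA : Prop :=
  ∀ (n k t : ℕ), 1 ≤ t → t < k → 2 * k ≤ n →
    (∀ j, 1 ≤ j → j ≤ t → theta n k t j = -1) ∧
    (∀ m, 1 ≤ m → t + m ≤ k → theta n k t (t + m) = (-1 : ℝ) ^ (m - 1) * TT t m (k - t) (n - k - t))

/-- WB (120 lines).  `T_m ≤ 1` for `2 ≤ m ≤ κ` and `N ≥ t(κ-1)+1`.
Proof.  (i) `T_{m+1} ≤ T_m` for `m ≥ 2`, term by term: the quotient of the terms with index `a` is
`(m+a)(t+m)(κ-m-a) / (m (m+1+a)(N-m))` and
`m(m+1+a)(tκ-t+1-m) - (m+a)(t+m)(κ-m-a) ≥ 0` for `m ≥ 2`, `t ≥ 1`, `0 ≤ a ≤ t-1`: at `a = 0` it is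
`m(t-1)(mκ-1)`, and its derivative in `a` is `κ((t-1)(m-1)-1) + tm+m+m²+2a(t+m) ≥ 0` if `t ≥ 2`.
(ii) `T_2 ≤ 1` (`κ ≥ 2`, so `N ≥ t+1 ≥ 2`).  Put
`c_b = C(t+1,b) (κ)_b / ((N-1)N...(N+b-2))`, so `T_2 = Σ_{b≥2} (b-1) c_b = 1 + Σ_{b≥0} (b-1) c_b`.
`G(b) = b(N+b-2) c_b` satisfies `G(b+1) = (t+1-b)(κ-b) c_b`, so
`G(b+1) - G(b) = ((t+1)κ - (N+κ+t-1) b) c_b`; summing over `0 ≤ b ≤ t+1` gives
`(N+κ+t-1) Σ b c_b = (t+1) κ Σ c_b`, and `(t+1)κ ≤ N+κ+t-1`, so `Σ b c_b ≤ Σ c_b`. -/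
def S_WB : Prop :=
  ∀ (t m κ N : ℕ), 1 ≤ t → 2 ≤ m → m ≤ κ → t * (κ - 1) + 1 ≤ N → κ ≤ N → TT t m κ N ≤ 1

/-- WIL (80 lines, may assume `S_WA`, `S_WB`).  Take
`P = Σ_{b<t} (-1)^(t-1-b) C(k-1-b,k-t)/C(n-k-t+b,k-t) / (b! (n-2k+b)!) Π_{u<b} ((n-k+1+u)(k-u) - X)`;
then `ev n k P j = theta n k t j` for `j ≤ k` (identity of package POL).  `θ_{t+m} = T_m ≥ 0` for
`m` odd, `θ_{t+m} = -T_m ≥ -1` for `m` even.  Note `(t+1)(k-t+1) ≤ n` and `t < k` give `2k ≤ n`,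
`N = n-k-t ≥ t(κ-1)+1` and `N ≥ κ`. -/
def S_WIL : Prop :=
  ∀ (n k t : ℕ), 1 ≤ t → t < k → (t + 1) * (k - t + 1) ≤ n →
    ∃ P : Polynomial ℝ, P.degree < (t : WithBot ℕ) ∧
      (∀ j, 1 ≤ j → j ≤ t → ev n k P j = -1) ∧ (∀ j, t < j → j ≤ k → -1 ≤ ev n k P j)

/-- NUM (150 lines, may assume `S_WIL`).  Proof.  For `1 ≤ i ≤ t` let `P_i` be the Lagrange
polynomial (degree `≤ t-1`) with `ev P_i l = -[l = i]` for `1 ≤ l ≤ t`:
`P_i = (-1)^(i+1)/w_i Π_{l≠i} (X - y_l)/(y_i - y_l)` (the `y_l = l(n+1-l)`, `0 ≤ l ≤ k`, are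
strictly increasing as `2k ≤ n`).  For `j = 0` and for `t < j ≤ k`:
`ev P_i j = (-1)^(j-t-1) g_i(j)` (sign `+` for `j = 0`) with
`g_i(j) = (w_j/w_i) Π_{l≠i} |y_j - y_l|/|y_i - y_l| ≥ 0`.  Since
`g_i(j)/g_i(0) = (w_j/w_0) (Π_l |y_j-y_l|/y_l) y_i/(y_j-y_i)` is increasing in `i`,
`g_i(j) g_l(0) ≤ g_i(0) g_l(j)` for `i ≤ l`.
Put `P = Σ_{i≤s} P_i`, `Q = Σ_{i≤t} P_i`; `Q` is the polynomial of `S_WIL` (same values at the `t`
nodes), so `ev Q j ≥ -1`.  Let `j > t`.  If `j-t` is even: `ev P j ≤ 0` and `1 + ev Q j ≥ 0`.  If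
`j-t` is odd: `ev P j * ev Q 0 ≤ ev P 0 * ev Q j` (sum the monotonicity over `i ≤ s < l ≤ t`) and
`ev P j ≤ ev Q j`, so
`ev P j (1 + ev Q 0) ≤ ev Q j + ev P 0 ev Q j ≤ (1 + ev P 0)(1 + ev Q j)`. -/
def S_NUM : Prop :=
  ∀ (n k t s : ℕ), 1 ≤ t → t < k → (t + 1) * (k - t + 1) ≤ n → s ≤ t →
    ∃ P Q : Polynomial ℝ, P.degree < (t : WithBot ℕ) ∧ Q.degree < (t : WithBot ℕ) ∧
      (∀ j, 1 ≤ j → j ≤ t → ev n k Q j = -1) ∧
      (∀ j, 1 ≤ j → j ≤ s → ev n k P j = -1) ∧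
      (∀ j, 1 ≤ j → s < j → j ≤ t → ev n k P j = 0) ∧
      0 ≤ ev n k P 0 ∧ 0 ≤ ev n k Q 0 ∧
      (∀ j, t < j → j ≤ k →
        ev n k P j * (1 + ev n k Q 0) ≤ (1 + ev n k P 0) * (1 + ev n k Q j))

/-- the family `F` is a `t`-intersecting family of `k`-sets -/
def TInt {n : ℕ} (k t : ℕ) (F : Finset (Finset (Fin n))) : Prop :=
  (∀ A ∈ F, A.card = k) ∧ ∀ A ∈ F, ∀ B ∈ F, t ≤ (A ∩ B).card

/-- the full star of `T` -/
def star {n : ℕ} (k : ℕ) (T : Finset (Fin n)) : Finset (Finset (Fin n)) :=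
  (slice n k).filter (fun A => T ⊆ A)

/-- degree of `R` in `F` -/
def deg {n : ℕ} (F : Finset (Finset (Fin n))) (R : Finset (Fin n)) : ℕ :=
  (F.filter (fun A => R ⊆ A)).card

/-- PS (150 lines, may assume `S_HB`, `S_POL`, `S_NUM`): the spectral data `x` of the family `F` and
`z` of the star, with the inequality between the partial sums.
Proof.  `x`, `z` from `S_HB` with `f` the indicator of `F`, `star k T` (as a function on all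
finsets; `f A = dn t g A` for the star with `g = [X = T]`).  For `t`-intersecting `F` the fifth item
of `S_HB` is `0` for `i > k - t` (`|A \ B| = k - |A ∩ B| ≤ k - t < i`), so by `S_POL`
`Σ_j ev P j x_j = 0 = Σ_j ev Q j x_j`, the same for `z`.  For `s ≤ t`: from `P`:
`Σ_{j≤s} x_j = (1 + ev P 0) x_0 + Σ_{j>t} ev P j x_j`; from `Q`:
`|F| = Σ_j x_j = (1 + ev Q 0) x_0 + Σ_{j>t} (1 + ev Q j) x_j`; hence
`(1 + ev Q 0) Σ_{j≤s} x_j ≤ (1 + ev P 0) |F|`, with equality for the star (`z_j = 0` for `j > t`).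
So `(Σ_{j≤s} x_j) |S| ≤ |F| Σ_{j≤s} z_j` (multiply by `1 + ev Q 0 > 0`).  For `s ≥ t`:
`Σ_{j≤s} z_j = |S|` and `Σ_{j≤s} x_j ≤ |F|`. -/
def S_PS : Prop :=
  ∀ (n k t : ℕ) (F : Finset (Finset (Fin n))) (T : Finset (Fin n)),
    1 ≤ t → t < k → (t + 1) * (k - t + 1) ≤ n → TInt k t F → T.card = t →
    ∃ x z : ℕ → ℝ, (∀ j, 0 ≤ x j) ∧ (∀ j, 0 ≤ z j) ∧
      (x 0 * (n.choose k : ℝ) = (F.card : ℝ) ^ 2) ∧
      (z 0 * (n.choose k : ℝ) = ((star k T).card : ℝ) ^ 2) ∧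
      (∀ r, r ≤ k → ∑ R ∈ slice n r, (deg F R : ℝ) ^ 2 = ∑ j ∈ range (r + 1),
        ((k - j).choose (r - j) : ℝ) * ((n - r - j).choose (k - r) : ℝ) * x j) ∧
      (∀ r, r ≤ k → ∑ R ∈ slice n r, (deg (star k T) R : ℝ) ^ 2 = ∑ j ∈ range (r + 1),
        ((k - j).choose (r - j) : ℝ) * ((n - r - j).choose (k - r) : ℝ) * z j) ∧
      (∀ s, s ≤ k → (∑ j ∈ range (s + 1), x j) * ((star k T).card : ℝ) ≤
        (F.card : ℝ) * ∑ j ∈ range (s + 1), z j)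

/-- LTWO (80 lines, may assume `S_PS`).  Abel summation: the coefficients
`λ_j = C(k-j, r-j) C(n-r-j, k-r)`, `0 ≤ j ≤ r`, are nonnegative and nonincreasing in `j`. -/
def S_LTWO : Prop :=
  ∀ (n k t r : ℕ) (F : Finset (Finset (Fin n))) (T : Finset (Fin n)),
    1 ≤ t → t < k → (t + 1) * (k - t + 1) ≤ n → TInt k t F → T.card = t → r ≤ k →
    (∑ R ∈ slice n r, (deg F R : ℝ) ^ 2) * ((star k T).card : ℝ) ≤
      (F.card : ℝ) * ∑ R ∈ slice n r, (deg (star k T) R : ℝ) ^ 2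

/-- CVX (70 lines).  For real `p ≥ 2`, `0 ≤ a < D`, `0 ≤ x ≤ D`:
`x^p ≤ a^p + p a^(p-1) (x-a) + c (x-a)²` with `c = (D^p - a^p - p a^(p-1)(D-a))/(D-a)² ≥ 0`.
Proof: `ψ(x) = (x^p - a^p - p a^(p-1)(x-a))/(x-a)² = ∫_0^1 (1-u) p (p-1) (a+u(x-a))^(p-2) du` is
nondecreasing; or: `h(x) = a^p + p a^(p-1)(x-a) + c(x-a)² - x^p` has `h(a) = h'(a) = h(D) = 0` and
`h'(x) = p a^(p-1) + 2c(x-a) - p x^(p-1)` is concave on `[0,∞)` (`x^(p-1)` is convex) with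
`h'(a) = 0`; so `h' ≤ 0` on `[0,a]` if `h' ≥ 0` somewhere on the right of `a`, which holds since
`h(D) = h(a)`; so `h ≥ 0` on `[0,a]`; on `[a,D]` concavity of `h'` gives that `h` first increases
and then decreases, so `h ≥ 0` there too. -/
def S_CVX : Prop :=
  ∀ (p a D x : ℝ), 2 ≤ p → 0 ≤ a → a < D → 0 ≤ x → x ≤ D →
    0 ≤ (D ^ p - a ^ p - p * a ^ (p - 1) * (D - a)) / (D - a) ^ 2 ∧
    x ^ p ≤ a ^ p + p * a ^ (p - 1) * (x - a) +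
      (D ^ p - a ^ p - p * a ^ (p - 1) * (D - a)) / (D - a) ^ 2 * (x - a) ^ 2

/-- ONE (60 lines, may assume `S_CVX`).  Proof.  `a = φ s < D`.
`Σ (d_i - a)² ≤ t (D - a)²` (expand, use the hypotheses on `Σ d` and `Σ d²`), so by `S_CVX`
`Σ d^p ≤ n a^p + p a^(p-1) (Σ d - n a) + t (D^p - a^p - p a^(p-1) (D-a))`, and
`Σ d - n a = φ t (D - s)`, so the right side is
`t D^p + (n-t) a^p - p a^(p-1) t (1-φ) D ≤ t D^p + (n-t) s^p`. -/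
def S_ONE : Prop :=
  ∀ (n t : ℕ) (d : Fin n → ℝ) (p D s φ : ℝ), 2 ≤ p → t ≤ n → 0 ≤ s → s < D → 0 ≤ φ → φ ≤ 1 →
    (∀ i, 0 ≤ d i) → (∀ i, d i ≤ D) → ∑ i, d i = φ * (t * D + ((n : ℝ) - t) * s) →
    ∑ i, d i ^ 2 ≤ t * D ^ 2 - 2 * t * D * s * φ * (1 - φ) + ((n : ℝ) - t) * φ ^ 2 * s ^ 2 →
    ∑ i, d i ^ p ≤ t * D ^ p + ((n : ℝ) - t) * s ^ p

/-- RONE (150 lines, may assume `S_PS`, `S_ONE`).  The case `r = 1`, all real `p ≥ 2`.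
Proof.  `D = |S| = C(n-t,k-t)`, `s = C(n-t-1,k-t-1) = D (k-t)/(n-t)` (degree in the star of a point
outside `T`; points of `T` have degree `D`), `φ = |F|/D ∈ [0,1]` (`S_PS` with `s = k`, or with
`s = 0` and `x_0 = |F|²/C(n,k)`: `|F|² D ≤ |F| D²`), `Σ d = k |F| = φ k D`, `k D = t D + (n-t) s`,
`d ≤ |F| ≤ D`.  With `λ_0 = k C(n-1,k-1)`, `λ_1 = C(n-2,k-1)` and `S_PS` for `s = 1` and
`x_0 = φ² z_0`:
`Σ d² = λ_0 x_0 + λ_1 x_1 = (λ_0-λ_1) x_0 + λ_1 (x_0+x_1) ≤ φ² (λ_0-λ_1) z_0 + φ λ_1 (z_0+z_1)`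
`= φ² Q_S + φ(1-φ) λ_1 (z_0+z_1)`, `Q_S = t D² + (n-t) s² = λ_0 z_0 + λ_1 z_1`.  Here
`λ_1 z_1 = Q_S - k² D²/n = D² t (n-k)²/(n(n-t))`, `λ_1 z_0 = D² k(n-k)/(n(n-1))`, so
`λ_1 (z_0+z_1) ≤ 2 t D² (n-k)/(n-t) = 2 t D (D-s)`, which gives the hypothesis of `S_ONE`. -/
def S_RONE : Prop :=
  ∀ (n k t : ℕ) (p : ℝ) (F : Finset (Finset (Fin n))) (T : Finset (Fin n)),
    1 ≤ t → t < k → (t + 1) * (k - t + 1) ≤ n → TInt k t F → T.card = t → 2 ≤ p →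
    ∑ R ∈ slice n 1, (deg F R : ℝ) ^ p ≤ ∑ R ∈ slice n 1, (deg (star k T) R : ℝ) ^ p

/-- the `r`-degree power sum -/
def ell {n : ℕ} (r : ℕ) (p : ℝ) (F : Finset (Finset (Fin n))) : ℝ :=
  ∑ R ∈ slice n r, (deg F R : ℝ) ^ p

/-- FINL (60 lines, may assume `S_LTWO`, `S_RONE`, and `|F| ≤ |S|` from `S_PS`; the case `k = t`: `F`
has at most one member). -/
def S_FINL : Prop :=
  (∀ (n k t r : ℕ) (p : ℝ) (F : Finset (Finset (Fin n))) (T : Finset (Fin n)),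
    1 ≤ t → t ≤ k → 1 ≤ r → r ≤ k - 1 → (t + 1) * (k - t + 1) ≤ n →
    TInt k t F → T.card = t → (p = 2 ∨ (r = 1 ∧ 2 ≤ p)) → ell r p F ≤ ell r p (star k T)) ∧
  (∀ (n k t r : ℕ) (F : Finset (Finset (Fin n))) (T : Finset (Fin n)),
    1 ≤ t → t ≤ k → r ≤ k → (t + 1) * (k - t + 1) ≤ n → TInt k t F → T.card = t →
    ell r 2 F * ((star k T).card : ℝ) ≤ (F.card : ℝ) * ell r 2 (star k T))

end

end Pool.Agent.P8H39.TI
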