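import Pool.Agent.P8H39.TI.Stm

/-!
# Project TI, second part: all real `p ≥ 2` for every level `r ≤ t`

Main point (package LVL): for a `t`-intersecting family in the full range (with `k ≥ t+2`) every
harmonic weight `x_i`, `i ≤ t`, is at most the harmonic weight `z_i` of the star.  So
`Σ_R G_F(R)² ≤ Σ_R G_S(R)²` for EVERY `G_F(R) = Σ_{A ∈ F} b(|R \ A|)`, `|R| = r ≤ t`.  For a
threshold `c` one chooses `b` with `b(0) = 1`, `b ≥ 0` so that `G(R) - (c/|S|)|F| ≥ d(R) - c`, with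
equality (to the positive part) on the star.  Integration over `c` gives all `p ≥ 2`.

Packages (each: one file with a theorem `t_NAME : S_NAME`, possibly with earlier `S_...` as
hypotheses): CHU, STAR, NUM2, HB2, LVL, B1, BPOS, TH, PW, KONE, FIN2.
-/

set_option autoImplicit false

namespace Pool.Agent.P8H39.TI

open Finset

noncomputable section

/-- CHU (60 lines).  Proof: induction on `t` (all `κ`, `N ≥ 1`): by Pascal the left side `f_t(N,κ)`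
satisfies `f_{t+1}(N,κ) = f_t(N,κ) + (κ/N) f_t(N+1,κ-1)` (`f_{t+1}(N,0) = 1`), and the same holds
for the right side.  Second part: `b C(t,b) = t C(t-1,b-1)`, so the sum is
`t (κ/N) f_{t-1}(N+1, κ-1)`. -/
def S_CHU : Prop :=
  (∀ (t κ N : ℕ), 1 ≤ N →
    ∑ b ∈ range (t + 1), (t.choose b : ℝ) * (κ.descFactorial b : ℝ) / (N.ascFactorial b : ℝ) =
      ∏ u ∈ range t, ((N : ℝ) + κ + u) / ((N : ℝ) + u)) ∧
  (∀ (t κ N : ℕ), 1 ≤ N →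
    (∑ b ∈ range (t + 1),
      (b : ℝ) * ((t.choose b : ℝ) * (κ.descFactorial b : ℝ) / (N.ascFactorial b : ℝ))) *
        ((N : ℝ) + κ + t - 1) =
      (t : ℝ) * κ * ∏ u ∈ range t, ((N : ℝ) + κ + u) / ((N : ℝ) + u))

/-- STAR (120 lines, may assume `S_CHU`).  For `m ≥ 1`, `κ ≥ max(m,2)`, `N ≥ t(κ-1)+1`.
Proof.  `m = 1`: `TT t 1 κ N = Σ_{a<t} C(t,a+1) (κ)_(a+1)/(N+a)_(a+1)`, so by `S_CHU`
`1 + TT t 1 κ N = Π_{u<t} (N+κ+u)/(N+u)`, and after cancelling the claim is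
`κ t (N+κ+t+1) ≤ 2 (N+t)(N+κ)`.
`m ≥ 2`: `C(m+a-1,a) C(t+m-1,m+a) = C(t+m-1,m) C(t-1,a) m/(m+a)`,
`(κ)_(m+a)/(N+a)_(m+a) = (κ)_m/(N)_m * (κ-m)_a/((N+1)(N+2)...(N+a))`.  With
`u_a = C(t-1,a) (κ-m)_a/((N+1)...(N+a))` (`a < t`), `U = Σ u_a`, `m/(m+a) ≥ 1 - a/m` and the two
parts of `S_CHU` (with `t-1, κ-m, N+1`), `Σ a u_a = U (t-1)(κ-m)/(N+κ-m+t-1)`, so
`TT t m κ N ≥ C(t+m-1,m) (κ)_m/(N)_m U (1 - (t-1)(κ-m)/(m(N+κ-m+t-1)))`.  The left side of the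
claim divided by `(N+t)_(t+m) = (N+t)(N+t-1)...(N+1) (N)_m` is
`C(t+m-1,m) (κ)_m/(N)_m U (N+κ+t+1)(N+κ+t-m)/((N+t)(N+κ-m+1))`, and
`(N+κ+t+1)(N+κ+t-m) m (N+κ-m+t-1) ≤ 2 (N+t)(N+κ-m+1) (m(N+κ-m+t-1) - (t-1)(κ-m))`: with
`t = 1+t'`, `m = 2+m'`, `κ = m+κ'`, `N = t(κ-1)+1+d` the difference is a polynomial with
nonnegative coefficients in `t', m', κ', d` (so even the claim with `2 TT` on the right holds). -/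
def S_STAR : Prop :=
  ∀ (t m κ N : ℕ), 1 ≤ t → 1 ≤ m → m ≤ κ → 2 ≤ κ → t * (κ - 1) + 1 ≤ N →
    (κ.descFactorial m : ℝ) * ((t + m - 1).choose m : ℝ) * ((N : ℝ) + κ + t + 1) *
        ((N + κ + t - m).descFactorial (t - 1) : ℝ) ≤
      2 * (1 + TT t m κ N) * ((N + t).descFactorial (t + m) : ℝ)

/-- NUM2 (200 lines, may assume `S_WA`, `S_WB`, `S_WIL`, `S_STAR`).  `P = P_i` and `Q = Σ_l P_l` are
the polynomials of the proof of `S_NUM`: for `j > t`: `ev P_i j = (-1)^(j-t-1) g_i(j)`,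
`ev P_i 0 = g_i(0)`.  Proof.  If `j - t` is even then `ev P j ≤ 0` and `1 + ev Q j ≥ 0`.  Let
`j - t = m` be odd.  `g_i(j)/g_i(0)` is increasing in `i`, so `g_i(j) ≤ κ_j g_i(0)` with
`κ_j = g_t(j)/g_t(0) = (w_j/w_0) Π_{1≤l<t} (y_j-y_l)/y_l`, and it is left to see
`κ_j (1 + ev Q 0) ≤ 2 (1 + ev Q j)`.  Here `ev Q j = θ_j = TT t m (k-t) (n-k-t)` (`S_WA`; `Q` is
Wilson's polynomial, same values at the `t` nodes) and `1 + ev Q 0 = C(n,k)/C(n-t,k-t)`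
`= (n)_t/(k)_t` (for instance from `theta n k t 0 = C(n,k)/C(n-t,k-t) - 1`, or from `S_POL` applied
to the star; or from the identity `Σ_j` for the star), and
`(w_j/w_0) Π_{l<t} (y_j-y_l)/y_l (n)_t/(k)_t`
`= (κ)_m C(t+m-1,m) (N+κ+t+1) (N+κ+t-m)_(t-1) / (N+t)_(t+m)`, `κ = k-t`, `N = n-k-t`
(`y_j - y_l = (j-l)(n+1-j-l)`, `w_j/w_0 = (k)_j/(n-k)_j`).  This is `≤ 2(1+TT)` by `S_STAR`. -/
def S_NUM2 : Prop :=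
  ∀ (n k t i : ℕ), 1 ≤ t → t + 2 ≤ k → (t + 1) * (k - t + 1) ≤ n → 1 ≤ i → i ≤ t →
    ∃ P Q : Polynomial ℝ, P.degree < (t : WithBot ℕ) ∧ Q.degree < (t : WithBot ℕ) ∧
      (∀ j, 1 ≤ j → j ≤ t → ev n k Q j = -1) ∧
      (∀ j, 1 ≤ j → j ≤ t → ev n k P j = if j = i then -1 else 0) ∧
      0 ≤ ev n k P 0 ∧ 0 ≤ ev n k Q 0 ∧
      (∀ j, t < j → j ≤ k →
        ev n k P j * (1 + ev n k Q 0) ≤ 2 * ev n k P 0 * (1 + ev n k Q j))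

/-- eigenvalues of `f ↦ (R ↦ Σ_A b(|R \ A|) f(A))`, squared and normalised -/
def lamb (n k r : ℕ) (b : ℕ → ℝ) (j : ℕ) : ℝ :=
  (∑ i ∈ range (r + 1), (∑ e ∈ range (i + 1), (-1 : ℝ) ^ (i - e) * (i.choose e : ℝ) * b e) *
    ((n - i - j).choose (k - j) : ℝ) * ((r - j).choose (r - i) : ℝ)) ^ 2 *
      ((k - j).choose (r - j) : ℝ) / ((n - r - j).choose (k - r) : ℝ)

/-- HB2 (150 lines, may assume `S_HA`; best by copying the proof of `S_HB`): the data of `S_HB` with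
one more item.  Proof of the new item.  `f = Σ_j v_j` on `slice n k`, `v_j = dn j u_j`.  Since
`b(|R \ A|) = Σ_i β_i #{Y ⊆ R : |Y| = i, Y ∩ A = ∅}` with `β_i = Σ_{e≤i} (-1)^(i-e) C(i,e) b(e)`,
`Σ_A b(|R \ A|) v_j(A) = Σ_{i≤r} β_i Σ_{Y ⊆ R, |Y| = i} av n k v_j Y`
`= Σ_i β_i (-1)^j C(n-i-j, k-j) Σ_{Y ⊆ R, |Y|=i} dn j u_j Y` and the last sum is
`C(r-j, i-j) dn j u_j R` (`0` for `i < j`).  So it is `η_j dn j u_j R`; for `|R| = r` these are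
orthogonal for different `j` and `Σ_{|R|=r} (dn j u_j R)² = C(k-j,r-j)/C(n-r-j,k-r) x_j`, because
`C(n-r-j,k-r) Σ_R (dn j u_j R)² = Σ_R (dn j u_j R) up n k v_j R = Σ_A v_j(A) Σ_{R ⊆ A} dn j u_j R`
`= C(k-j,r-j) Σ_A v_j(A)²`. -/
def S_HB2 : Prop :=
  ∀ (n k : ℕ), 2 * k ≤ n → ∀ f : Finset (Fin n) → ℝ, ∃ x : ℕ → ℝ,
    (∀ j, 0 ≤ x j) ∧
    (∑ j ∈ range (k + 1), x j = ∑ A ∈ slice n k, f A ^ 2) ∧
    (x 0 * (n.choose k : ℝ) = (∑ A ∈ slice n k, f A) ^ 2) ∧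
    (∀ r, r ≤ k → ∀ b : ℕ → ℝ,
      ∑ R ∈ slice n r, (∑ A ∈ slice n k, b (R \ A).card * f A) ^ 2 =
        ∑ j ∈ range (r + 1), lamb n k r b j * x j) ∧
    (∀ i, i ≤ k → ∑ A ∈ slice n k, ∑ B ∈ slice n k, ((A \ B).card.choose i : ℝ) * f A * f B =
      ∑ j ∈ range (i + 1),
        (-1 : ℝ) ^ j * ((k - j).choose (i - j) : ℝ) * ((n - i - j).choose (k - j) : ℝ) * x j) ∧
    (∀ t, t ≤ k → (∃ g : Finset (Fin n) → ℝ, ∀ A ∈ slice n k, f A = dn t g A) →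
      ∀ j, t < j → j ≤ k → x j = 0)

/-- LVL (120 lines, may assume `S_HB2`, `S_POL`, `S_NUM2`, and `S_NUM`/`S_PS` if useful).
Proof.  `x`, `z` from `S_HB2` for the indicators of `F` and of the star.  Put `D = |S|`,
`|F| = φ D`; `φ ≤ 1` (Wilson; `S_PS` with `s = 0`, or `Σ_j (1 + ev Q j) x_j`...), `x_0 = φ² z_0`.
For `1 ≤ i ≤ t`, as in PS: `0 = Σ_j ev P j x_j = ev P 0 x_0 - x_i + Σ_{j>t} ev P j x_j`, so
`z_i = ev P 0 z_0`; `φ D = Σ_j x_j = (1 + ev Q 0) x_0 + Σ_{j>t} (1 + ev Q j) x_j`,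
`D = (1 + ev Q 0) z_0`, hence `Σ_{j>t} (1 + ev Q j) x_j = φ(1-φ) D` and
`x_i ≤ φ² z_i + (2 ev P 0/(1 + ev Q 0)) φ(1-φ) D = φ² z_i + 2 φ(1-φ) z_i ≤ z_i`. -/
def S_LVL : Prop :=
  ∀ (n k t : ℕ) (F : Finset (Finset (Fin n))) (T : Finset (Fin n)),
    1 ≤ t → t + 2 ≤ k → (t + 1) * (k - t + 1) ≤ n → TInt k t F → T.card = t →
    F.card ≤ (star k T).card ∧
    ∃ x z : ℕ → ℝ, (∀ i, i ≤ t → x i ≤ z i) ∧
      (∀ r, r ≤ t → ∀ b : ℕ → ℝ,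
        ∑ R ∈ slice n r, (∑ A ∈ F, b (R \ A).card) ^ 2 = ∑ j ∈ range (r + 1), lamb n k r b j * x j) ∧
      (∀ r, r ≤ t → ∀ b : ℕ → ℝ,
        ∑ R ∈ slice n r, (∑ A ∈ star k T, b (R \ A).card) ^ 2 =
          ∑ j ∈ range (r + 1), lamb n k r b j * z j)

/-- B1 (150 lines).  Proof.  `B_e = Σ_{i=q+1}^e C(e,i) (-1)^(i-q-1) C(i-1,q)/C(ν-i,κ)` (`0` for
`e ≤ q`).  (i) `Σ_e C(l,e) C(e,i) C(ν-l,ν-κ-e) = C(l,i) C(ν-i,κ)` (`C(l,e)C(e,i) = C(l,i)C(l-i,e-i)`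
and Vandermonde), so the sum in the last item is `Σ_{i>q} (-1)^(i-q-1) C(l,i) C(i-1,q) = [l > q]`
(induction on `l`: the difference for `l`, `l-1` is
`Σ_i (-1)^(i-q-1) C(l-1,i-1) C(i-1,q) = [l-1 = q]`).
(ii) `B_e - B_{e-1} = C(e-1,q) Σ_u (-1)^u C(e-1-q,u)/C(ν-q-1-u,κ) = (-1)^a τ_a` with `a = e-1-q` and
`τ_a = C(q+a,q) κ (ν-κ-q-1-a)! (κ+a-1)!/(ν-1-q)!` (finite differences of `1/C(M,κ)`:
`Σ_u (-1)^u C(a,u)/C(M-u,κ) = (-1)^a κ (κ+a-1)! (M-κ-a)!/M!`, induction on `a`).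
(iii) `τ_a ≤ τ_{a-1}` for `a ≥ 1`, `q+1+a ≤ r`: this is `(q+a)(κ+a-1) ≤ a (ν-κ-q-a)`, and
`ν-κ-q-a ≥ (q+a)(κ-1)+κ+1`, `a((q+a)(κ-1)+κ+1) - (q+a)(κ+a-1) = (a-1)(q+a)(κ-1) + a(κ+1-q-a)`, which
is `≥ 0`: for `a = 1` it is `κ-q`; for `a ≥ 2` it is
`≥ (q+a)((a-1)(κ-1)-a) + a(κ+1)`, clear if `κ ≥ 3` and `a ≥ 2`
(`(a-1)(κ-1) ≥ a`), and equal to `2a - q ≥ 0` if `κ = 2` (`q ≤ κ`).
So `B_e` is an alternating sum of decreasing terms, `≥ 0`. -/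
def S_B1 : Prop :=
  ∀ (ν κ q r : ℕ), 2 ≤ κ → q ≤ κ → (r + 1) * κ + 1 ≤ ν →
    ∃ B : ℕ → ℝ, (∀ e, e ≤ q → B e = 0) ∧ (∀ e, e ≤ r → 0 ≤ B e) ∧
      (∀ l, l ≤ r → ∑ e ∈ range (l + 1), B e * (l.choose e : ℝ) * ((ν - l).choose (ν - κ - e) : ℝ) =
        if q < l then 1 else 0)

/-- BPOS (80 lines, may assume `S_B1`).  Proof.  `s_l = C(ν-l, ν-κ)` is decreasing in `l`, `s_l = 0`
for `l > κ`, `s_0 ≥ c`.  `max s_l c = s_l + Σ_{q<l} δ_q` with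
`δ_q = max(c - s_{q+1}) 0 - max(c - s_q) 0 ≥ 0` and `δ_q = 0` for `q > κ`.  So
`b = [e = 0] + Σ_{q < r, q ≤ κ} δ_q B^(q)_e` (and `0` for `e > r`). -/
def S_BPOS : Prop :=
  ∀ (ν κ r : ℕ) (c : ℝ), 2 ≤ κ → (r + 1) * κ + 1 ≤ ν → 0 ≤ c → c ≤ (ν.choose κ : ℝ) →
    ∃ b : ℕ → ℝ, b 0 = 1 ∧ (∀ e, 0 ≤ b e) ∧
      (∀ l, l ≤ r → ∑ e ∈ range (l + 1), b e * (l.choose e : ℝ) * ((ν - l).choose (ν - κ - e) : ℝ) =
        max (((ν - l).choose (ν - κ) : ℕ) : ℝ) c)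

/-- TH (150 lines, may assume `S_LVL`, `S_BPOS`).  Proof.  `D = |S| = C(n-t,k-t)`, `|F| ≤ D`.  If
`c > D` both sides are `0` (`d ≤ |F| ≤ D`).  Let `c ≤ D`, `ν = n-t`, `κ = k-t`, `b` from `S_BPOS`
(`(r+1)κ+1 ≤ (t+1)κ+1 ≤ n-t`), `b'(e) = b(e) - c/D`.  For every `R`:
`Σ_{A ∈ F} b'(|R \ A|) ≥ d_F(R) - c |F|/D ≥ d_F(R) - c`, so the left side is at most
`Σ_R (Σ_{A∈F} b'(|R \ A|))² = Σ_j lamb x_j ≤ Σ_j lamb z_j = Σ_R (Σ_{A∈S} b'(|R \ A|))²`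
(`lamb ≥ 0`).  For the star and `|R \ T| = l ≤ r`: `A = T ∪ X`, `X ⊆ [n] \ T`, `|X| = κ`,
`|R \ A| = |(R \ T) \ X|`; the number of `X` with `|(R\T) \ X| = e` is `C(l,e) C(ν-l, ν-κ-e)`
(choose the complement), so `Σ_{A∈S} b(|R \ A|) = max(s_l, c)`, `s_l = C(ν-l,ν-κ) = d_S(R)`, and
`Σ_{A∈S} b'(|R \ A|) = max(s_l,c) - c`. -/
def S_TH : Prop :=
  ∀ (n k t r : ℕ) (c : ℝ) (F : Finset (Finset (Fin n))) (T : Finset (Fin n)),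
    1 ≤ t → t + 2 ≤ k → r ≤ t → (t + 1) * (k - t + 1) ≤ n → TInt k t F → T.card = t → 0 ≤ c →
    ∑ R ∈ slice n r, (max ((deg F R : ℝ) - c) 0) ^ 2 ≤
      ∑ R ∈ slice n r, (max ((deg (star k T) R : ℝ) - c) 0) ^ 2

/-- PW (100 lines).  Proof.  `p = 2`: `c = 0`.  `p > 2`: for `x ≥ 0` and `M ≥ x`
`∫_0^M (max (x-c) 0)² c^(p-3) dc = ∫_0^x (x-c)² c^(p-3) dc = 2 x^p/(p(p-1)(p-2))`; multiply the
hypothesis by `c^(p-3)` and integrate over `(0, M)`, `M` larger than all `a R`, `b R`. -/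
def S_PW : Prop :=
  ∀ (n : ℕ) (s : Finset (Finset (Fin n))) (a b : Finset (Fin n) → ℝ) (p : ℝ), 2 ≤ p →
    (∀ R ∈ s, 0 ≤ a R) → (∀ R ∈ s, 0 ≤ b R) →
    (∀ c : ℝ, 0 ≤ c → ∑ R ∈ s, (max (a R - c) 0) ^ 2 ≤ ∑ R ∈ s, (max (b R - c) 0) ^ 2) →
    ∑ R ∈ s, a R ^ p ≤ ∑ R ∈ s, b R ^ p

/-- KONE (100 lines, may assume `S_LTWO`, `S_PS`): the case `k = t+1`.  Proof.  `D = |S| = n - t ≥ 3`,
`|F| = φ D`, `φ ≤ 1` (`S_PS`), `d = d_F(R)` is `0` or in `[1, D]`.  By convexity of `x^(p-1)` on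
`[1,D]`: `x^p ≤ x ((D-x) + (x-1) D^(p-1))/(D-1) = α x + β x²` for `x = 0` and `1 ≤ x ≤ D`, with
`β ≥ 0`, equality for `x ∈ {0,1,D}`.  All degrees of the star are in `{0,1,D}`.
`Σ d_F = C(t+1,r)|F| = φ Σ d_S`, `Σ d_F² ≤ φ Σ d_S²` (`S_LTWO`), so
`Σ d_F^p ≤ α Σ d_F + β Σ d_F² ≤ φ Σ_R (α d_S + β d_S²) = φ Σ d_S^p ≤ Σ d_S^p`. -/
def S_KONE : Prop :=
  ∀ (n t r : ℕ) (p : ℝ) (F : Finset (Finset (Fin n))) (T : Finset (Fin n)),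
    1 ≤ t → 2 * (t + 1) ≤ n → TInt (t + 1) t F → T.card = t → r ≤ t + 1 → 2 ≤ p →
    ell r p F ≤ ell r p (star (t + 1) T)

/-- FIN2 (60 lines, may assume `S_FINL` or `S_LTWO`, `S_PS`, and `S_TH`, `S_PW`, `S_KONE`; the case
`k = t`: `F` has at most one member, and the star is `{T}`). -/
def S_FIN2 : Prop :=
  (∀ (n k t r : ℕ) (p : ℝ) (F : Finset (Finset (Fin n))) (T : Finset (Fin n)),
    1 ≤ t → t ≤ k → 1 ≤ r → r ≤ k - 1 → (t + 1) * (k - t + 1) ≤ n →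
    TInt k t F → T.card = t → (p = 2 ∨ (r ≤ t ∧ 2 ≤ p)) → ell r p F ≤ ell r p (star k T)) ∧
  (∀ (n k t r : ℕ) (F : Finset (Finset (Fin n))) (T : Finset (Fin n)),
    1 ≤ t → t ≤ k → r ≤ k → (t + 1) * (k - t + 1) ≤ n → TInt k t F → T.card = t →
    ell r 2 F * ((star k T).card : ℝ) ≤ (F.card : ℝ) * ell r 2 (star k T))

end

end Pool.Agent.P8H39.TI
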