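import Pool.Agent.P8H39.TI.Stm2

/-!
# Project TI, third part: all levels and all real `p ≥ 2` for `n ≥ t + 4k(k-t) + 6t(k-t)³`

Packages (each: one file with a theorem `t_NAME : S_NAME`, possibly with earlier `S_...` as
hypotheses): SYM, CNT, NT, SUM, BIG, FIN3.
-/

set_option autoImplicit false

namespace Pool.Agent.P8H39.TI

open Finset

noncomputable section

/-- SYM (60 lines).  The power sums of a star depend only on `|T|`.  Proof: a permutation of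
`Fin n` which maps `T` to `T'` maps `slice n r` to itself and `deg (star k T) R` to
`deg (star k T') (σ R)`; or: `deg (star k T) R = C(n - |R ∪ T|, k - |R ∪ T|)`. -/
def S_SYM : Prop :=
  ∀ (n k r : ℕ) (p : ℝ) (T T' : Finset (Fin n)), T.card = T'.card →
    ell r p (star k T) = ell r p (star k T')

/-- CNT (120 lines).  `T = A ∩ B` with `|T| = t`, `|A| = |B| = k`.  The number of `k`-sets `E` which
do not contain `T` and have `|E ∩ A| ≥ t`, `|E ∩ B| ≥ t`.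
Proof.  Let `j = |T \ E| ≥ 1`.  Then `|E ∩ (A\T)| ≥ j` and `|E ∩ (B\T)| ≥ j` (so `j ≤ k-t`), and `E`
contains `(T \ J) ∪ X ∪ Y` with `J = T \ E`, `X ⊆ A\T`, `Y ⊆ B\T`, `|J| = |X| = |Y| = j`, a set of
`t + j` elements.  Union bound over `(J,X,Y)`: there are `C(t,j) C(k-t,j)²` triples, and
`C(n-t-j, k-t-j)` sets `E` for each. -/
def S_CNT : Prop :=
  ∀ (n k t : ℕ) (A B T : Finset (Fin n)), t ≤ k → A.card = k → B.card = k → T = A ∩ B →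
    T.card = t →
    ((slice n k).filter (fun E => ¬ T ⊆ E ∧ t ≤ (E ∩ A).card ∧ t ≤ (E ∩ B).card)).card ≤
      ∑ j ∈ Icc 1 (k - t), t.choose j * (k - t).choose j ^ 2 * (n - t - j).choose (k - t - j)

/-- NT (150 lines, may assume `S_CNT` and `|F| ≤ |S|` from `S_PS`).  Nontrivial families have at most
`|S|/2` members.  Proof.  `κ = k-t`, `ν = n-t`, `D = C(ν,κ)`; `C(ν-j,κ-j) ≤ (κ/ν)^j D`.
If `F` is `(t+1)`-intersecting: `|F| ≤ C(ν-1,κ-1) = κ D/ν` by `S_PS` for `t+1` (`t+1 < k`,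
`(t+2)(k-t) ≤ n`; take `T` any set with `t+1` elements, `s = 0`, `x_0 = |F|²/C(n,k)`).
Else there are `A, B ∈ F` with `|A ∩ B| = t`; `T = A ∩ B`; by assumption there is `C ∈ F` with
`T ⊄ C`.  Members `E ⊇ T` meet `C \ T` (`|E ∩ C| ≥ t > |T ∩ C|`): at most `k C(ν-1,κ-1)` of them.
The others: `S_CNT`, at most `Σ_{j≥1} C(t,j) C(κ,j)² C(ν-j,κ-j) ≤ D Σ_{j≥1} (t κ³/ν)^j ≤ D/5`
(`t κ³/ν ≤ 1/6`).  Total at most `D (1/4 + 1/5) ≤ D/2`. -/
def S_NT : Prop :=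
  ∀ (n k t : ℕ) (F : Finset (Finset (Fin n))), 1 ≤ t → t + 2 ≤ k →
    t + 4 * k * (k - t) + 6 * t * (k - t) ^ 3 ≤ n → TInt k t F →
    (∀ T : Finset (Fin n), T.card = t → ∃ A ∈ F, ¬ T ⊆ A) →
    2 * F.card ≤ (n - t).choose (k - t)

/-- SUM (120 lines).  For the star and `r = t + a`, `0 ≤ a ≤ k-t`, `ν = n-t`, `κ = k-t`.
Proof.  `deg (star k T) R = s_l`, `s_l = C(ν-l, κ-l)` (`0` for `l > κ`) with `l = |R \ T| ≥ a`, and
there are `C(t, r-l) C(ν,l)` such `R`.  So the left side is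
`Σ_{i=0}^{min(t,κ-a)} C(t,i) C(ν,a+i) s_{a+i}²`.
`C(ν,a+i) ≤ C(ν,a) (ν-a)^i`, `s_{a+i} ≤ s_a ((κ-a)/(ν-a))^i`, `C(t,i) ≤ t^i`, so the term with index
`i` is at most `C(ν,a) s_a² (t(κ-a)²/(ν-a))^i ≤ C(ν,a) s_a² / 2^i`
(`2 t κ² ≤ ν - κ ≤ ν - a`); the sum is at most `2 C(ν,a) s_a²`.
Second part: the `C(ν,a)` sets `R ⊇ T` have degree `s_a = C(n-r,k-r)`. -/
def S_SUM : Prop :=
  ∀ (n k t r : ℕ) (T : Finset (Fin n)), 1 ≤ t → t ≤ r → r ≤ k → T.card = t →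
    t + k + 2 * t * (k - t) ^ 2 ≤ n →
    ∑ R ∈ slice n r, (deg (star k T) R : ℝ) ^ 2 ≤
      2 * ((n - t).choose (r - t) : ℝ) * ((n - r).choose (k - r) : ℝ) ^ 2 ∧
    ∀ p : ℝ, 0 < p → ((n - t).choose (r - t) : ℝ) * ((n - r).choose (k - r) : ℝ) ^ p ≤
      ell r p (star k T)

/-- BIG (100 lines, may assume `S_SYM`, `S_NT`, `S_SUM`, `S_LTWO`).  Proof.  If all members of `F`
contain a `t`-set `T'`, then `F ⊆ star k T'` and `ell r p F ≤ ell r p (star k T') = ell r p (star k T)`.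
Else `|F| ≤ D/2` (`S_NT`), `d_F(R) ≤ s := C(n-r,k-r)`, so
`Σ d_F^p ≤ s^(p-2) Σ d_F² ≤ s^(p-2) (|F|/D) Σ d_S² ≤ s^(p-2) (1/2) 2 C(n-t,r-t) s²`
`= C(n-t,r-t) s^p ≤ ell r p (star k T)`. -/
def S_BIG : Prop :=
  ∀ (n k t r : ℕ) (p : ℝ) (F : Finset (Finset (Fin n))) (T : Finset (Fin n)),
    1 ≤ t → t + 2 ≤ k → t ≤ r → r ≤ k → t + 4 * k * (k - t) + 6 * t * (k - t) ^ 3 ≤ n →
    TInt k t F → T.card = t → 2 ≤ p → ell r p F ≤ ell r p (star k T)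

/-- FIN3 (60 lines, may assume `S_FIN2`, `S_BIG`, `S_KONE`). -/
def S_FIN3 : Prop :=
  (∀ (n k t r : ℕ) (p : ℝ) (F : Finset (Finset (Fin n))) (T : Finset (Fin n)),
    1 ≤ t → t ≤ k → 1 ≤ r → r ≤ k - 1 → (t + 1) * (k - t + 1) ≤ n →
    TInt k t F → T.card = t → 2 ≤ p →
    (p = 2 ∨ r ≤ t ∨ t + 4 * k * (k - t) + 6 * t * (k - t) ^ 3 ≤ n) →
      ell r p F ≤ ell r p (star k T)) ∧
  (∀ (n k t r : ℕ) (F : Finset (Finset (Fin n))) (T : Finset (Fin n)),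
    1 ≤ t → t ≤ k → r ≤ k → (t + 1) * (k - t + 1) ≤ n → TInt k t F → T.card = t →
    ell r 2 F * ((star k T).card : ℝ) ≤ (F.card : ℝ) * ell r 2 (star k T))

end

end Pool.Agent.P8H39.TI
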