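import Pool.Agent.P8H39.TI.Stm4

/-!
# Project TI, fifth part: the level `r = t+1`, all real `p ≥ 2`, (almost) the full range of `n`

Notation: `ν = n-t`, `κ = k-t ≥ 3`, `r = t+1`, `s_l = C(ν-l, ν-κ)`, `D = s_0`.
Packages: STAR5, NUM5, LVL5, B5, LAM5, TH5, FIN5.
-/

set_option autoImplicit false

namespace Pool.Agent.P8H39.TI

open Finset

noncomputable section

/-- STAR5 (80 lines, may assume `S_CHU`).  Proof.  `1 + TT t 1 κ N = Π_{u<t} (N+κ+u)/(N+u) =: G`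
(`S_CHU`, see the proof of `S_STAR`), and the left side divided by `(N+t)_(t+1) = (N+t)(N+t-1)_t` is
`ω G` with `ω = κ t (N+κ+t+1)/((N+t)(N+κ))`; so the claim is `(2-ω) G ≥ 1`.  Put `y = tκ/(N+t) < 1`.
`G ≥ 1 + Σ_u κ/(N+u) ≥ 1 + y`; `(N+κ+t+1)/(N+κ) = 1 + (t+1)/(N+κ) ≤ 3/2` as
`N+κ ≥ tκ-t+1+κ ≥ 2t+4` for `κ ≥ 3`; so `ω ≤ (3/2) y` and
`(2 - (3/2)y)(1+y) - 1 = 1 + y/2 - (3/2) y² ≥ 0` for `0 ≤ y ≤ 1`. -/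
def S_STAR5 : Prop :=
  ∀ (t κ N : ℕ), 1 ≤ t → 3 ≤ κ → t * (κ - 1) + 1 ≤ N →
    (κ : ℝ) * (t : ℝ) * ((N : ℝ) + κ + t + 1) * ((N + κ + t - 1).descFactorial (t - 1) : ℝ) ≤
      (1 + 2 * TT t 1 κ N) * ((N + t).descFactorial (t + 1) : ℝ)

/-- NUM5 (may assume `S_STAR5`, `S_STAR` and everything landed; copy of the proof of `S_NUM2`).
For `j = t+1` use `S_STAR5` in place of `S_STAR` (`2(1 + ev Q j) - 1 = 1 + 2 TT`). -/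
def S_NUM5 : Prop :=
  ∀ (n k t i : ℕ), 1 ≤ t → t + 3 ≤ k → (t + 1) * (k - t + 1) ≤ n → 1 ≤ i → i ≤ t →
    ∃ P Q : Polynomial ℝ, P.degree < (t : WithBot ℕ) ∧ Q.degree < (t : WithBot ℕ) ∧
      (∀ j, 1 ≤ j → j ≤ t → ev n k Q j = -1) ∧
      (∀ j, 1 ≤ j → j ≤ t → ev n k P j = if j = i then -1 else 0) ∧
      0 ≤ ev n k P 0 ∧ 0 ≤ ev n k Q 0 ∧ 0 ≤ ev n k Q (t + 1) ∧
      (∀ j, t < j → j ≤ k → -1 ≤ ev n k Q j ∧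
        ev n k P j * (1 + ev n k Q 0) ≤
          ev n k P 0 * (2 * (1 + ev n k Q j) - if j = t + 1 then 1 else 0))

/-- LVL5 (may assume `S_HB2`, `S_POL`, `S_NUM5`, `S_PS`; copy of the proof of `S_LVL` / `S_LVL3`).
For `1 ≤ i ≤ t`: `x_i ≤ φ² z_i + (z_i/D) (2 Σ_{j>t} (1 + ev Q j) x_j - x_{t+1})`
`= φ² z_i + 2φ(1-φ) z_i - (z_i/D) x_{t+1}`.  For `i = 0`:
`x_{t+1} ≤ (1 + ev Q (t+1)) x_{t+1} ≤ φ(1-φ) D`, so `x_0 + (z_0/D) x_{t+1} ≤ φ² z_0 + φ(1-φ) z_0`. -/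
def S_LVL5 : Prop :=
  ∀ (n k t : ℕ) (F : Finset (Finset (Fin n))) (T : Finset (Fin n)),
    1 ≤ t → t + 3 ≤ k → (t + 1) * (k - t + 1) ≤ n → TInt k t F → T.card = t →
    F.card ≤ (star k T).card ∧
    ∃ x z : ℕ → ℝ, (∀ j, 0 ≤ x j) ∧
      (∀ i, i ≤ t → x i * ((star k T).card : ℝ) + z i * x (t + 1) ≤
        z i * ((star k T).card : ℝ)) ∧
      (∀ r, r ≤ k → ∀ b : ℕ → ℝ,
        ∑ R ∈ slice n r, (∑ A ∈ F, b (R \ A).card) ^ 2 = ∑ j ∈ range (r + 1), lamb n k r b j * x j) ∧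
      (∀ r, r ≤ k → ∀ b : ℕ → ℝ,
        ∑ R ∈ slice n r, (∑ A ∈ star k T, b (R \ A).card) ^ 2 =
          ∑ j ∈ range (r + 1), lamb n k r b j * z j) ∧
      (∀ j, t < j → j ≤ k → z j = 0)

/-- B5 (200 lines, may assume `S_B1`; use the proofs of `S_B1` (helper59) and `S_BPOS` (helper20)).
`B^(q)_e = Σ_{i=q+1}^e C(e,i) (-1)^(i-q-1) C(i-1,q)/C(ν-i,κ)`, differences `(-1)^a τ^(q)_a`,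
`τ^(q)_a = C(q+a,q) κ (ν-κ-q-1-a)! (κ+a-1)!/(ν-1-q)!`, as in B1.
`b = [e=0] + Σ_{q ≤ t, q ≤ κ} δ_q B^(q)` as in BPOS (now `r = t+1`).  For `e ≤ t` all `B^(q)_e ≥ 0`
(`S_B1` with `r = t`).  For `e = t+1`: `B^(t)_{t+1} = 1/C(ν-t-1,κ) > 0`.  `q ≤ t-2`: the chain
`τ_a ≤ τ_{a-1}` holds for `q+a < t` (B1) and for `q+a = t`, `a ≥ 2`:
`a(ν-κ-t) - t(κ+a-1) ≥ a(tκ+1-t) - t(κ+a-1) = t((a-1)κ-(2a-1)) + a ≥ 0` as `κ ≥ 3`.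
`q = t-1`: only needed if `t-1 ≤ κ` (else `δ_{t-1} = 0`), then `κ+2 ≤ t` is false, so `ν ≥ tκ+2t-1`.
`B^(t-1)_{t+1} = (1 - tκ/(ν-κ-t))/C(ν-t,κ)`.  If `c ≤ s_t` then `δ_{t-1} = 0`.  If `c > s_t`:
`δ_t = s_t - s_{t+1}`, `δ_{t-1} ≤ s_{t-1} - s_t`, and
`(s_{t-1}-s_t) B^(t-1)_{t+1} + (s_t-s_{t+1}) B^(t)_{t+1} ≥ 0` because
`s_{t-1}-s_t = C(ν-t,κ-t+1)`, `s_t-s_{t+1} = C(ν-t-1,κ-t) = (s_{t-1}-s_t)(κ-t+1)/(ν-t)`,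
`C(ν-t,κ)/C(ν-t-1,κ) = (ν-t)/(ν-t-κ)`: it is
`1 - tκ/(ν-κ-t) + (κ-t+1)/(ν-κ-t) ≥ 0`, i.e. `ν ≥ tκ + 2t - 1`. -/
def S_B5 : Prop :=
  ∀ (t κ ν : ℕ) (c : ℝ), 2 ≤ t → 3 ≤ κ → (t + 1) * κ + 1 ≤ ν →
    (κ + 2 ≤ t ∨ t * κ + 2 * t ≤ ν + 1) → 0 ≤ c → c ≤ (ν.choose κ : ℝ) →
    ∃ b : ℕ → ℝ, b 0 = 1 ∧ (∀ e, 0 ≤ b e) ∧ Tight ν κ (t + 1) c b

/-- LAM5 (180 lines; may use the lemmas in the proof of `S_ETA`, helper73).  `r = t+1 ≥ 3`, `ν ≥ rκ+1`.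
Proof.  `eta = β_r C(n-2r,k-r)` (only `i = r` is left as `r - j = 0`), so
`lamb = β_r² C(n-2r,k-r)`, `C(n-2r,k-r) = C(ν-r-1,κ-1) = κ/(ν-r) C(ν-r,κ)`, and (ETA)
`C(ν-r,κ) |β_r| = |Σ_u (-1)^u C(r,u) max(s_u,c)| = |Σ_u (-1)^u w_u| =: X`, `w_u = C(r,u) max(s_u-c,0)`
(`Σ_u (-1)^u C(r,u) = 0`).  `w_{u+1} ≤ w_u` as `(r-u)(κ-u) ≤ (u+1)(ν-u)`, so `0 ≤ X ≤ w_0-w_1+w_2 =
(s_0-c) - r(s_1-c) + C(r,2)(s_2-c) ≤ s_0 - r s_1 + C(r,2) s_2 =: D x`, `x = 1 - y + u_2` with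
`y = rκ/ν ≤ 1`, `u_2 = C(r,2) κ(κ-1)/(ν(ν-1)) ≤ y²/2`.  In the same way with `c = 0`
`C(ν-r,κ) ≥ s_0 - r s_1 + C(r,2)s_2 - C(r,3)s_3 ≥ D (x - u_2/3) ≥ (2/3) D x`
(`C(r,3)s_3 ≤ (1/3) C(r,2)s_2`, `u_2 ≤ x`).  `s_1 - s_2 = (κ/ν) D (1-(κ-1)/(ν-1))`.  So the claim is
`κ X² D ≤ (ν-r) C(ν-r,κ) ν (s_1-s_2)²`, which follows from
`x² ≤ (2/3) x C_0`, `C_0 = κ (1-r/ν)(1-(κ-1)/(ν-1))² ≥ (κ-y)(1-y/r)² ≥ (3-y)³/9`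
(`r/ν = y/κ`, `(κ-1)/(ν-1) ≤ κ/ν = y/r`, `r, κ ≥ 3`), and `(3/2)(1-y+y²/2) ≤ (3-y)³/9` on `[0,1]`. -/
def S_LAM5 : Prop :=
  ∀ (n k t : ℕ) (c : ℝ) (b : ℕ → ℝ), 2 ≤ t → t + 3 ≤ k → (t + 1) * (k - t + 1) ≤ n →
    0 ≤ c → c ≤ ((n - t - 2).choose (n - k) : ℝ) → Tight (n - t) (k - t) (t + 1) c b →
    lamb n k (t + 1) b (t + 1) * ((n - t).choose (k - t) : ℝ) ≤
      ((n - t : ℕ) : ℝ) * (((n - t - 1).choose (n - k) : ℝ) - ((n - t - 2).choose (n - k) : ℝ)) ^ 2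

/-- TH5 (may assume `S_LVL5`, `S_B5`, `S_LAM5`; copy of the proof of `S_TH3` by helper94 with
`r = t+1`, `a = 1`).  `c ≥ s_1`: left side `0`; `s_2 ≤ c < s_1`: reduce to `c = s_2`; `c ≤ s_2`:
`D Σ_{i≤t} lamb x_i + V x_{t+1} ≤ V D` (`S_LVL5`) and `D lamb(b) (t+1) ≤ ν (s_1-s_2)² ≤ V`. -/
def S_TH5 : Prop :=
  ∀ (n k t : ℕ) (c : ℝ) (F : Finset (Finset (Fin n))) (T : Finset (Fin n)),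
    2 ≤ t → t + 3 ≤ k → (t + 1) * (k - t + 1) ≤ n → (k + 2 ≤ 2 * t ∨ t * (k - t + 3) ≤ n + 1) →
    TInt k t F → T.card = t → 0 ≤ c →
    ∑ R ∈ slice n (t + 1), (max ((deg F R : ℝ) - c) 0) ^ 2 ≤
      ∑ R ∈ slice n (t + 1), (max ((deg (star k T) R : ℝ) - c) 0) ^ 2

/-- FIN5 (40 lines, may assume `S_FIN4`, `S_TH5`, `S_PW`). -/
def S_FIN5 : Prop :=
  (∀ (n k t r : ℕ) (p : ℝ) (F : Finset (Finset (Fin n))) (T : Finset (Fin n)),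
    1 ≤ t → t ≤ k → 1 ≤ r → r ≤ k - 1 → (t + 1) * (k - t + 1) ≤ n →
    TInt k t F → T.card = t → 2 ≤ p →
    (p = 2 ∨ r ≤ t ∨ t + 8 * r * (k - t) ≤ n ∨
      (r = t + 1 ∧ 2 ≤ t ∧ t + 3 ≤ k ∧ (k + 2 ≤ 2 * t ∨ t * (k - t + 3) ≤ n + 1))) →
      ell r p F ≤ ell r p (star k T)) ∧
  (∀ (n k t r : ℕ) (F : Finset (Finset (Fin n))) (T : Finset (Fin n)),
    1 ≤ t → t ≤ k → r ≤ k → (t + 1) * (k - t + 1) ≤ n → TInt k t F → T.card = t →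
    ell r 2 F * ((star k T).card : ℝ) ≤ (F.card : ℝ) * ell r 2 (star k T))

end

end Pool.Agent.P8H39.TI
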