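import Pool.Agent.P8H39.TI.Stm5

/-!
# Project TI, sixth part: all levels `r`, full range of `n`, all large `p`

`p ≥ C(n-r,k-r) log C(n,r)`.  The sets `R` of full degree `s = C(n-r,k-r)` form a `t`-intersecting
family `H` of `r`-sets, `n > (t+1)(r-t+1)`; so `|H| ≤ C(n-t,r-t)` and equality holds only for a star
(then `F` is contained in a star); if `|H| < C(n-t,r-t)` the estimate is trivial for large `p`.
Packages: STR, NUL, PRJ, GOT, SUP, UNI, BGP, FIN6.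
-/

set_option autoImplicit false

namespace Pool.Agent.P8H39.TI

open Finset

noncomputable section

/-- STR (40 lines, may assume `S_WB`).  Proof: `TT t m κ N < TT t m κ (N-1) ≤ 1`: every summand is
antitone in `N` (`Nat.descFactorial` is monotone) and the summand `a = 0`,
`C(t+m-1,m) (κ)_m/(N)_m`, is strictly decreasing as `(κ)_m > 0`, `(N-1)_m < (N)_m`. -/
def S_STR : Prop :=
  ∀ (t m κ N : ℕ), 1 ≤ t → 2 ≤ m → m ≤ κ → t * (κ - 1) + 2 ≤ N → κ + 1 ≤ N → TT t m κ N < 1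

/-- NUL (120 lines, may assume `S_STR`, `S_WA`, `S_HB`, `S_POL` and everything landed; see the proofs
of `S_WIL` (helper54) and `S_PS` (helper75)).  `f` = indicator of `F`, `D = C(n-t,k-t) = |F|`.
Proof.  `Q` = Wilson's polynomial: `ev Q j = θ_j`: `-1` for `1 ≤ j ≤ t` and
`ev Q j = (-1)^(m-1) TT t m (k-t) (n-k-t) > -1` for `j = t+m ≤ k` (`TT ≥ 0` for `m` odd, `S_STR` for
`m` even).  As in PS: `Σ_j ev Q j x_j = 0`, so `|F| = Σ_j x_j = (1 + ev Q 0) x_0 +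
Σ_{j>t} (1 + ev Q j) x_j`; the same for the star (with `z`): `D = (1 + ev Q 0) z_0`; and `x_0 = z_0`
(as `|F| = D`).  So `Σ_{j>t} (1 + ev Q j) x_j = 0` and all `x_j = 0`, `t < j ≤ k`. -/
def S_NUL : Prop :=
  ∀ (n k t : ℕ) (F : Finset (Finset (Fin n))) (x : ℕ → ℝ),
    1 ≤ t → t < k → (t + 1) * (k - t + 1) + 1 ≤ n → TInt k t F →
    F.card = (n - t).choose (k - t) → (∀ j, 0 ≤ x j) →
    (∑ j ∈ range (k + 1), x j = (F.card : ℝ)) → (x 0 * (n.choose k : ℝ) = (F.card : ℝ) ^ 2) →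
    (∀ i, i ≤ k → ∑ A ∈ slice n k, ∑ B ∈ slice n k, ((A \ B).card.choose i : ℝ) *
        (if A ∈ F then 1 else 0) * (if B ∈ F then 1 else 0) =
      ∑ j ∈ range (i + 1),
        (-1 : ℝ) ^ j * ((k - j).choose (i - j) : ℝ) * ((n - i - j).choose (k - j) : ℝ) * x j) →
    ∀ j, t < j → j ≤ k → x j = 0

/-- PRJ (100 lines, may assume `S_HB`).  Proof.  `P f = dn t g` = orthogonal projection of `f` on the
functions `dn t g` on `slice n k` (see the proof of `S_HB`, helper76), `f = dn t g + h` with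
`up n k h Y = 0` for `|Y| = t`, hence for all `|Y| ≤ t`.  `x'` from `S_HB` for `dn t g`: `x' j = 0` for
`j > t` (last item), and `x' j = x j` for `j ≤ t` by induction on `r ≤ t` with the fourth item (`up` of
`f` and of `dn t g` agree at the levels `r ≤ t`; the coefficient of `x r` is `C(n-2r,k-r) > 0`).  So
`Σ (dn t g)² = Σ_{j≤t} x j = Σ f²`, so `Σ h² = 0`. -/
def S_PRJ : Prop :=
  ∀ (n k t : ℕ) (f : Finset (Fin n) → ℝ) (x : ℕ → ℝ), 2 * k ≤ n → t ≤ k →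
    (∑ j ∈ range (k + 1), x j = ∑ A ∈ slice n k, f A ^ 2) →
    (∀ r, r ≤ k → ∑ R ∈ slice n r, up n k f R ^ 2 = ∑ j ∈ range (r + 1),
      ((k - j).choose (r - j) : ℝ) * ((n - r - j).choose (k - r) : ℝ) * x j) →
    (∀ j, t < j → j ≤ k → x j = 0) →
    ∃ g : Finset (Fin n) → ℝ, ∀ A ∈ slice n k, f A = dn t g A

/-- GOT (60 lines, Mathlib only).  Proof.  `σ(U) = Σ_{S ⊆ U, |S| = s} g S` for `U ⊆ X`.  `σ(U) = 0` for
all `|U| ≥ m` (`Σ_{V ⊆ U, |V| = m} σ(V) = C(|U|-s, m-s) σ(U)`; or induction on `|U|`: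
`Σ_{u ∈ U} σ(U \ {u}) = (|U|-s) σ(U)`).  For `|S| = s`:
`g S = Σ_{W ⊆ S} (-1)^|W| σ(X \ W)` (exchange the sums: `Σ_{W ⊆ S \ S'} (-1)^|W| = [S ⊆ S']`), and
`|X \ W| ≥ |X| - s ≥ m`. -/
def S_GOT : Prop :=
  ∀ (n s m : ℕ) (X : Finset (Fin n)) (g : Finset (Fin n) → ℝ), s ≤ m → m + s ≤ X.card →
    (∀ U, U ⊆ X → U.card = m → ∑ S ∈ powersetCard s U, g S = 0) →
    ∀ S, S ⊆ X → S.card = s → g S = 0

/-- SUP (100 lines, may assume `S_GOT`).  Proof.  Induction on `i = |T ∩ α| < t`.  `J = T ∩ α`,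
`X = αᶜ`.  For `U ⊆ X`, `|U| = r - i`, `β = J ∪ U`: `0 = Σ_{T' ⊆ β, |T'| = t} h T'
= Σ_{J' ⊆ J} Σ_{S ⊆ U, |S| = t-|J'|} h (J' ∪ S)`, and the terms with `J' ≠ J` vanish by induction.  So
`Σ_{S ⊆ U, |S| = t-i} h (J ∪ S) = 0` and `S_GOT` (`s = t-i`, `m = r-i`,
`m + s = r + t - 2i ≤ n - r = |X|`) gives `h (J ∪ S) = 0`. -/
def S_SUP : Prop :=
  ∀ (n r t : ℕ) (α : Finset (Fin n)) (h : Finset (Fin n) → ℝ), t ≤ r → 2 * r + t ≤ n → α.card = r →
    (∀ β : Finset (Fin n), β.card = r → (β ∩ α).card < t → dn t h β = 0) →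
    ∀ T : Finset (Fin n), T.card = t → ¬ T ⊆ α → h T = 0

/-- UNI (60 lines, may assume `S_NUL`, `S_PRJ`, `S_SUP`, `S_HB`).  Uniqueness in Wilson's theorem.
Proof.  `x` from `S_HB` for the indicator `f` of `F`; `x j = 0` for `j > t` by `S_NUL`; so `f = dn t h`
on the slice (`S_PRJ`).  For `α ∈ F`: `f β = 0` if `|β ∩ α| < t`, so `h T = 0` for all `T ⊄ α`
(`S_SUP`).  `F` is not empty; for `A ∈ F`: `1 = Σ_{T ⊆ A} h T`, so `h T ≠ 0` for some `|T| = t`, and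
this `T` is contained in all members of `F`. -/
def S_UNI : Prop :=
  ∀ (n k t : ℕ) (F : Finset (Finset (Fin n))), 1 ≤ t → t < k → (t + 1) * (k - t + 1) + 1 ≤ n →
    2 * k + t ≤ n → TInt k t F → F.card = (n - t).choose (k - t) →
    ∃ T : Finset (Fin n), T.card = t ∧ ∀ A ∈ F, T ⊆ A

/-- HFU (80 lines, Mathlib only).  `H` = sets `R` of full degree.  (1) `H` is `t`-intersecting: if
`|R ∩ R'| < t` take disjoint sets `X`, `Y` of `k-r` elements outside `R ∪ R'` (`2k ≤ n`); then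
`R ∪ X, R' ∪ Y ∈ F` meet in `R ∩ R'`.  (2) if `T`, `|T| = t`, and all `r`-sets `R ⊇ T` have full degree
then `F ⊆ star k T`: for `A ∈ F` with `T ⊄ A` take `B ⊇ T`, `|B| = k`, `B \ T` outside `A ∪ T`
(`|A ∪ T| + k - t ≤ 2k ≤ n`), and `T ⊆ R ⊆ B`; `R` has full degree, so `B ∈ F`, but
`|A ∩ B| = |A ∩ T| < t`. -/
def S_HFU : Prop :=
  ∀ (n k t r : ℕ) (F : Finset (Finset (Fin n))), t < r → r < k → 2 * k ≤ n → TInt k t F →
    (∀ R : Finset (Fin n), R.card = r → deg F R ≤ (n - r).choose (k - r)) ∧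
    TInt r t ((slice n r).filter (fun R => deg F R = (n - r).choose (k - r))) ∧
    (∀ T : Finset (Fin n), T.card = t →
      (∀ R : Finset (Fin n), R.card = r → T ⊆ R → deg F R = (n - r).choose (k - r)) →
      ∀ A ∈ F, T ⊆ A)

/-- NLG (30 lines, Mathlib only).  Proof.  `s = 1` is clear; else
`(1 - 1/s)^p ≤ exp(-p/s) ≤ 1/N`, as `p ≥ s log N`. -/
def S_NLG : Prop :=
  ∀ (s N : ℕ) (p : ℝ), 1 ≤ s → 1 ≤ N → 2 ≤ p → (s : ℝ) * Real.log N ≤ p →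
    (N : ℝ) * ((s : ℝ) - 1) ^ p ≤ (s : ℝ) ^ p

/-- BGP (120 lines, may assume `S_UNI`, `S_HFU`, `S_NLG`, `S_PS` and everything landed).  Proof.
`s = C(n-r,k-r)`, `M = C(n-t,r-t)`, `H` as in `S_HFU`; `|H| ≤ M` (for instance from the landed `aPS`,
`k := r`, or `S_LVL`).  The star: `C(n-t,r-t)` sets `R ⊇ T` have degree `s`, so
`M s^p ≤ ell r p (star k T)`.  If `|H| < M`: `Σ_R d^p ≤ (M-1) s^p + C(n,r) (s-1)^p ≤ M s^p`
(`S_NLG`).  If `|H| = M`: `S_UNI` (with `k := r`, `n ≥ (t+1)(k-t+1) ≥ (t+1)(r-t+1) + 1`, and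
`2r + t ≤ n`: `(t+1)(κ+1) ≥ 2(t+κ-1) + t`, `κ = k-t ≥ 2`) gives `T'` with `H ⊆ star r T'`, so
`H = star r T'` (same number), so `F ⊆ star k T'`, so `ell r p F ≤ ell r p (star k T')
= ell r p (star k T)` (both are `Σ_l (number of R with |R \ T| = l) C(n-t-l,k-t-l)^p`, or use a
permutation of `Fin n`). -/
def S_BGP : Prop :=
  ∀ (n k t r : ℕ) (p : ℝ) (F : Finset (Finset (Fin n))) (T : Finset (Fin n)),
    1 ≤ t → t < r → r < k → (t + 1) * (k - t + 1) ≤ n → TInt k t F → T.card = t → 2 ≤ p →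
    ((n - r).choose (k - r) : ℝ) * Real.log (n.choose r) ≤ p → ell r p F ≤ ell r p (star k T)

/-- FIN6 (30 lines, may assume `S_FIN5`, `S_BGP`). -/
def S_FIN6 : Prop :=
  (∀ (n k t r : ℕ) (p : ℝ) (F : Finset (Finset (Fin n))) (T : Finset (Fin n)),
    1 ≤ t → t ≤ k → 1 ≤ r → r ≤ k - 1 → (t + 1) * (k - t + 1) ≤ n →
    TInt k t F → T.card = t → 2 ≤ p →
    (p = 2 ∨ r ≤ t ∨ t + 8 * r * (k - t) ≤ n ∨
      ((n - r).choose (k - r) : ℝ) * Real.log (n.choose r) ≤ p ∨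
      (r = t + 1 ∧ 2 ≤ t ∧ t + 3 ≤ k ∧ (k + 2 ≤ 2 * t ∨ t * (k - t + 3) ≤ n + 1))) →
      ell r p F ≤ ell r p (star k T)) ∧
  (∀ (n k t r : ℕ) (F : Finset (Finset (Fin n))) (T : Finset (Fin n)),
    1 ≤ t → t ≤ k → r ≤ k → (t + 1) * (k - t + 1) ≤ n → TInt k t F → T.card = t →
    ell r 2 F * ((star k T).card : ℝ) ≤ (F.card : ℝ) * ell r 2 (star k T))

end

end Pool.Agent.P8H39.TI
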