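import Pool.Agent.P8H39.TI.Stm6

/-!
# Project TI, sixth part, better bound: `p C(n-k-r,k-r) ≥ 2 C(n-r,k-r) log C(n,r)`

The sets `R` of which fewer than `m/2` of the `s = C(n-r,k-r)` possible members are missing,
`m = C(n-k-r,k-r)`, form a `t`-intersecting family.  Packages: HFB, NLB, BGB, FIN7 (replace HFU, NLG,
BGP, FIN6).
-/

set_option autoImplicit false

namespace Pool.Agent.P8H39.TI

open Finset

noncomputable section

/-- HFB (120 lines, Mathlib only).  `s = C(n-r,k-r)`, `m = C(n-k-r,k-r)`, `q = k-r`; the missing sets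
of `R`: `k`-sets `B ⊇ R` with `B ∉ F`, there are `s - deg F R`.
(1) `H = {R : 2 s < 2 deg F R + m}` is `t`-intersecting: let `|R ∩ R'| < t`, `U` = complement of
`R ∪ R'`, `u = |U| ≥ n - 2r`.  For disjoint `q`-subsets `X`, `Y` of `U` the sets `R ∪ X`, `R' ∪ Y` meet
in `R ∩ R'`, so one of them is missing.  There are `C(u,q) C(u-q,q)` pairs and every missing set is in
`C(u-q,q) > 0` of them, so `C(u,q) ≤ (s - deg F R) + (s - deg F R') < m ≤ C(n-2r,q) ≤ C(u,q)`.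
(2) if `T`, `|T| = t`, and all `r`-sets `R ⊇ T` are in `H`, then `T ⊆ A` for all `A ∈ F`: otherwise take
`R ⊇ T` with `R \ T` outside `A` (`|A ∪ T| + r - t ≤ k + r ≤ n`); the `k`-sets `B ⊇ R` with `B \ R`
outside `A ∪ R` satisfy `|A ∩ B| = |A ∩ T| < t`, so they are missing, and there are at least
`C(n-k-r,q) = m` of them. -/
def S_HFB : Prop :=
  ∀ (n k t r : ℕ) (F : Finset (Finset (Fin n))), t < r → r < k → 2 * k ≤ n → TInt k t F →
    (∀ R : Finset (Fin n), R.card = r → deg F R ≤ (n - r).choose (k - r)) ∧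
    TInt r t ((slice n r).filter (fun R =>
      2 * (n - r).choose (k - r) < 2 * deg F R + (n - k - r).choose (k - r))) ∧
    (∀ T : Finset (Fin n), T.card = t →
      (∀ R : Finset (Fin n), R.card = r → T ⊆ R →
        2 * (n - r).choose (k - r) < 2 * deg F R + (n - k - r).choose (k - r)) →
      ∀ A ∈ F, T ⊆ A)

/-- NLB (30 lines, Mathlib only).  Proof.  `d/s ≤ 1 - m/(2s) ≤ exp(-m/(2s))`, so
`(d/s)^p ≤ exp(-pm/(2s)) ≤ 1/N`. -/
def S_NLB : Prop :=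
  ∀ (s m N d : ℕ) (p : ℝ), 1 ≤ s → 1 ≤ N → 2 ≤ p → 2 * (s : ℝ) * Real.log N ≤ p * m →
    2 * d + m ≤ 2 * s → (N : ℝ) * (d : ℝ) ^ p ≤ (s : ℝ) ^ p

/-- BGB (120 lines, may assume `S_UNI`, `S_HFB`, `S_NLB`, `S_PS` and everything landed): as BGP with `H`
as in `S_HFB`.  If `|H| < M = C(n-t,r-t)`: `Σ_R d^p ≤ (M-1) s^p + Σ_{R ∉ H} d^p ≤ M s^p`, since each of
the at most `C(n,r)` sets `R ∉ H` has `C(n,r) d^p ≤ s^p`. -/
def S_BGB : Prop :=
  ∀ (n k t r : ℕ) (p : ℝ) (F : Finset (Finset (Fin n))) (T : Finset (Fin n)),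
    1 ≤ t → t < r → r < k → (t + 1) * (k - t + 1) ≤ n → TInt k t F → T.card = t → 2 ≤ p →
    2 * ((n - r).choose (k - r) : ℝ) * Real.log (n.choose r) ≤ p * ((n - k - r).choose (k - r) : ℝ) →
    ell r p F ≤ ell r p (star k T)

/-- FIN7 (30 lines, may assume `S_FIN5`, `S_BGB`). -/
def S_FIN7 : Prop :=
  (∀ (n k t r : ℕ) (p : ℝ) (F : Finset (Finset (Fin n))) (T : Finset (Fin n)),
    1 ≤ t → t ≤ k → 1 ≤ r → r ≤ k - 1 → (t + 1) * (k - t + 1) ≤ n →
    TInt k t F → T.card = t → 2 ≤ p →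
    (p = 2 ∨ r ≤ t ∨ t + 8 * r * (k - t) ≤ n ∨
      2 * ((n - r).choose (k - r) : ℝ) * Real.log (n.choose r) ≤
        p * ((n - k - r).choose (k - r) : ℝ) ∨
      (r = t + 1 ∧ 2 ≤ t ∧ t + 3 ≤ k ∧ (k + 2 ≤ 2 * t ∨ t * (k - t + 3) ≤ n + 1))) →
      ell r p F ≤ ell r p (star k T)) ∧
  (∀ (n k t r : ℕ) (F : Finset (Finset (Fin n))) (T : Finset (Fin n)),
    1 ≤ t → t ≤ k → r ≤ k → (t + 1) * (k - t + 1) ≤ n → TInt k t F → T.card = t →
    ell r 2 F * ((star k T).card : ℝ) ≤ (F.card : ℝ) * ell r 2 (star k T))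

end

end Pool.Agent.P8H39.TI
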