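import Pool.Agent.P8H39.TI.Stm7

/-!
# Project TI, last part: the level `r = t+1` for `k ≤ 2t` in the full range of `n`

If `R ⊆ B ∈ F` then `|R \ A| ≤ k - t` for all `A ∈ F`; so for `k - t ≤ t` only the coefficients `b e`,
`e ≤ t`, of the majorant have to be nonnegative.
-/

set_option autoImplicit false

namespace Pool.Agent.P8H39.TI

open Finset

noncomputable section

/-- B8 (helper39).  `b = bs` for `r = t+1`; for `e ≤ t` it agrees with the solution for `r = t`. -/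
def S_B8 : Prop :=
  ∀ (t κ ν : ℕ) (c : ℝ), 2 ≤ t → 3 ≤ κ → κ ≤ t → (t + 1) * κ + 1 ≤ ν → 0 ≤ c →
    c ≤ (ν.choose κ : ℝ) →
    ∃ b : ℕ → ℝ, b 0 = 1 ∧ (∀ e, e ≤ κ → 0 ≤ b e) ∧ Tight ν κ (t + 1) c b

/-- TH8 (may assume `S_LVL5`, `S_B8`, `S_LAM5`; copy of the proof of `S_TH5` by helper75).  The only new
point: `(d_F(R) - c)_+ ≤ |Σ_{A ∈ F} b'(|R \ A|)|` is clear if `d_F(R) ≤ c`; if `d_F(R) > c ≥ 0` there is
`B ∈ F` with `R ⊆ B`, and `|R \ A| ≤ k - t` for all `A ∈ F`, because `t ≤ |A ∩ B| ≤ |A ∩ R| + (k - r)`. -/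
def S_TH8 : Prop :=
  ∀ (n k t : ℕ) (c : ℝ) (F : Finset (Finset (Fin n))) (T : Finset (Fin n)),
    2 ≤ t → t + 3 ≤ k → (t + 1) * (k - t + 1) ≤ n → k ≤ 2 * t →
    TInt k t F → T.card = t → 0 ≤ c →
    ∑ R ∈ slice n (t + 1), (max ((deg F R : ℝ) - c) 0) ^ 2 ≤
      ∑ R ∈ slice n (t + 1), (max ((deg (star k T) R : ℝ) - c) 0) ^ 2

/-- FIN8 (may assume `S_FIN7`, `S_TH8`, `S_PW`). -/
def S_FIN8 : Prop :=
  (∀ (n k t r : ℕ) (p : ℝ) (F : Finset (Finset (Fin n))) (T : Finset (Fin n)),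
    1 ≤ t → t ≤ k → 1 ≤ r → r ≤ k - 1 → (t + 1) * (k - t + 1) ≤ n →
    TInt k t F → T.card = t → 2 ≤ p →
    (p = 2 ∨ r ≤ t ∨ t + 8 * r * (k - t) ≤ n ∨
      2 * ((n - r).choose (k - r) : ℝ) * Real.log (n.choose r) ≤
        p * ((n - k - r).choose (k - r) : ℝ) ∨
      (r = t + 1 ∧ 2 ≤ t ∧ t + 3 ≤ k ∧ (k ≤ 2 * t ∨ t * (k - t + 3) ≤ n + 1))) →
      ell r p F ≤ ell r p (star k T)) ∧
  (∀ (n k t r : ℕ) (F : Finset (Finset (Fin n))) (T : Finset (Fin n)),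
    1 ≤ t → t ≤ k → r ≤ k → (t + 1) * (k - t + 1) ≤ n → TInt k t F → T.card = t →
    ell r 2 F * ((star k T).card : ℝ) ≤ (F.card : ℝ) * ell r 2 (star k T))

end

end Pool.Agent.P8H39.TI
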